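import Pool.Agent.Helper7_WK.Refl0

/-!
# MP_7d2497_an: clusters of frequencies
-/

namespace Pool.Agent.Helper7_WK

open MeasureTheory Filter Topology Complex
open Pool.Agent.H78E

noncomputable section

/-- The exponential `exp(-i(x-u)t)`, the modulated one. -/
theorem mod_expR (u x t : ℝ) :
    Complex.exp (Complex.I * (u : ℂ) * (t : ℂ)) * expR x t =
      Complex.exp (Complex.I * ((u - x : ℝ) : ℂ) * (t : ℂ)) := by
  unfold expR
  rw [← Complex.exp_add]
  congr 1
  push_cast
  ring

theorem norm_exp_sub_one_le (θ : ℝ) : ‖Complex.exp (Complex.I * (θ : ℂ)) - 1‖ ≤ |θ| := by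
  have := Real.norm_exp_I_mul_ofReal_sub_one_le (x := θ)
  simpa [Real.norm_eq_abs] using this

/-- The step of the construction: integration against an exponential stays in the span. -/
theorem step_identity (F : Finset ℝ) (x u : ℝ) (hx : x ∉ F) (c : ℝ → ℂ) :
    ∃ c' : ℝ → ℂ, ∀ t : ℝ,
      Complex.exp (Complex.I * (u : ℂ) * (t : ℂ)) * ep (insert x F) c' t =
      ∫ s in (0 : ℝ)..t, Complex.exp (Complex.I * ((u - x : ℝ) : ℂ) * ((t - s : ℝ) : ℂ)) *
        (Complex.exp (Complex.I * (u : ℂ) * (s : ℂ)) * ep F c s) := by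
  classical
  refine ⟨fun y => if y = x then -∑ z ∈ F, c z / (Complex.I * ((x - z : ℝ) : ℂ)) else
    c y / (Complex.I * ((x - y : ℝ) : ℂ)), fun t => ?_⟩
  have hne : ∀ y ∈ F, y ≠ x := fun y hy h => hx (h ▸ hy)
  -- each term
  have key : ∀ y ∈ F, ∫ s in (0 : ℝ)..t,
      Complex.exp (Complex.I * ((u - x : ℝ) : ℂ) * ((t - s : ℝ) : ℂ)) *
        (Complex.exp (Complex.I * (u : ℂ) * (s : ℂ)) * (c y * expR y s)) =
      Complex.exp (Complex.I * (u : ℂ) * (t : ℂ)) * (c y / (Complex.I * ((x - y : ℝ) : ℂ)) *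
        (expR y t - expR x t)) := by
    intro y hy
    have hxy : ((x - y : ℝ) : ℂ) ≠ 0 := by
      rw [Complex.ofReal_ne_zero]
      exact sub_ne_zero.mpr (hne y hy).symm
    have hne' : Complex.I * ((x - y : ℝ) : ℂ) ≠ 0 := mul_ne_zero Complex.I_ne_zero hxy
    have e1 : ∀ s : ℝ, Complex.exp (Complex.I * ((u - x : ℝ) : ℂ) * ((t - s : ℝ) : ℂ)) *
        (Complex.exp (Complex.I * (u : ℂ) * (s : ℂ)) * (c y * expR y s)) =
        (c y * Complex.exp (Complex.I * ((u - x : ℝ) : ℂ) * (t : ℂ))) *
          Complex.exp ((Complex.I * ((x - y : ℝ) : ℂ)) * (s : ℂ)) := by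
      intro s
      have e2 : Complex.exp (Complex.I * ((u - x : ℝ) : ℂ) * ((t - s : ℝ) : ℂ)) *
          (Complex.exp (Complex.I * (u : ℂ) * (s : ℂ)) * expR y s) =
          Complex.exp (Complex.I * ((u - x : ℝ) : ℂ) * (t : ℂ)) *
          Complex.exp ((Complex.I * ((x - y : ℝ) : ℂ)) * (s : ℂ)) := by
        unfold expR
        rw [← Complex.exp_add, ← Complex.exp_add, ← Complex.exp_add]
        congr 1
        push_cast
        ring
      calc _ = c y * (Complex.exp (Complex.I * ((u - x : ℝ) : ℂ) * ((t - s : ℝ) : ℂ)) *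
          (Complex.exp (Complex.I * (u : ℂ) * (s : ℂ)) * expR y s)) := by ring
        _ = _ := by rw [e2]; ring
    simp_rw [e1]
    rw [intervalIntegral.integral_const_mul, integral_exp_mul_complex hne']
    have e3 : Complex.exp (Complex.I * ((u - x : ℝ) : ℂ) * (t : ℂ)) =
        Complex.exp (Complex.I * (u : ℂ) * (t : ℂ)) * expR x t := (mod_expR u x t).symm
    have e4 : expR x t * Complex.exp (Complex.I * ((x - y : ℝ) : ℂ) * (t : ℂ)) = expR y t := by
      unfold expR
      rw [← Complex.exp_add]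
      congr 1
      push_cast
      ring
    rw [e3]
    simp only [Complex.ofReal_zero, mul_zero, Complex.exp_zero]
    rw [← e4]
    field_simp
  have hcont : ∀ y : ℝ, Continuous fun s : ℝ => expR y s := by
    intro y
    unfold expR
    fun_prop
  have e5 : ∀ s : ℝ, Complex.exp (Complex.I * ((u - x : ℝ) : ℂ) * ((t - s : ℝ) : ℂ)) *
        (Complex.exp (Complex.I * (u : ℂ) * (s : ℂ)) * ep F c s) =
      ∑ y ∈ F, Complex.exp (Complex.I * ((u - x : ℝ) : ℂ) * ((t - s : ℝ) : ℂ)) *
        (Complex.exp (Complex.I * (u : ℂ) * (s : ℂ)) * (c y * expR y s)) := by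
    intro s
    unfold ep
    rw [Finset.mul_sum, Finset.mul_sum]
  simp_rw [e5]
  rw [intervalIntegral.integral_finsetSum]
  · rw [Finset.sum_congr rfl key]
    unfold ep
    rw [Finset.sum_insert hx, ← Finset.mul_sum]
    congr 1
    simp only [if_true]
    rw [neg_mul, Finset.sum_mul, ← Finset.sum_neg_distrib, ← Finset.sum_add_distrib]
    refine Finset.sum_congr rfl fun y hy => ?_
    rw [if_neg (hne y hy)]
    ring
  · intro y _
    apply Continuous.intervalIntegrable
    have := hcont y
    fun_prop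

/-- Sums with clustered frequencies close to `t^(n-1)/(n-1)!`. -/
theorem exists_cluster_sum (η u : ℝ) : ∀ (n : ℕ) (F : Finset ℝ), F.card = n + 1 →
    (∀ x ∈ F, |x - u| ≤ η) → ∃ c : ℝ → ℂ, ∀ t : ℝ, 0 ≤ t →
      ‖ep F c t‖ ≤ t ^ n / (n.factorial : ℝ) ∧
      ‖Complex.exp (Complex.I * (u : ℂ) * (t : ℂ)) * ep F c t - ((t ^ n / (n.factorial : ℝ) : ℝ) : ℂ)‖
        ≤ η * t * (t ^ n / (n.factorial : ℝ)) := by
  classical
  intro n
  induction n with
  | zero =>
    intro F hF hη'
    obtain ⟨x, rfl⟩ := Finset.card_eq_one.mp (by simpa using hF)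
    refine ⟨fun _ => 1, fun t ht => ⟨?_, ?_⟩⟩
    · unfold ep
      rw [Finset.sum_singleton, norm_mul, norm_expR]
      simp
    · unfold ep
      rw [Finset.sum_singleton, one_mul, mod_expR]
      have h1 := norm_exp_sub_one_le ((u - x) * t)
      have e : Complex.I * ((u - x : ℝ) : ℂ) * (t : ℂ) = Complex.I * (((u - x) * t : ℝ) : ℂ) := by
        push_cast; ring
      rw [e]
      simp only [pow_zero, Nat.factorial_zero, Nat.cast_one, div_one, Complex.ofReal_one, mul_one]
      refine h1.trans ?_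
      rw [abs_mul, abs_of_nonneg ht, abs_sub_comm]
      exact mul_le_mul_of_nonneg_right (hη' x (Finset.mem_singleton_self x)) ht
  | succ n ih =>
    intro F hF hη'
    obtain ⟨x, hxF⟩ : F.Nonempty := Finset.card_pos.mp (by omega)
    set F' := F.erase x with hF'
    have hx : x ∉ F' := Finset.notMem_erase x F
    have hins : insert x F' = F := Finset.insert_erase hxF
    have hcard : F'.card = n + 1 := by
      rw [hF', Finset.card_erase_of_mem hxF, hF]
      rfl
    obtain ⟨c, hc⟩ := ih F' hcard (fun y hy => hη' y (Finset.mem_of_mem_erase hy))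
    obtain ⟨c', hc'⟩ := step_identity F' x u hx c
    rw [hins] at hc'
    refine ⟨c', fun t ht => ?_⟩
    have hcontE : ∀ y : ℝ, Continuous fun s : ℝ => expR y s := by
      intro y
      unfold expR
      fun_prop
    have hcontep : Continuous fun s : ℝ => ep F' c s := by
      unfold ep
      exact continuous_finsetSum _ fun y _ => continuous_const.mul (hcontE y)
    set G : ℝ → ℂ := fun s => Complex.exp (Complex.I * ((u - x : ℝ) : ℂ) * ((t - s : ℝ) : ℂ)) *
        (Complex.exp (Complex.I * (u : ℂ) * (s : ℂ)) * ep F' c s) with hG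
    have hGc : Continuous G := by
      rw [hG]
      fun_prop
    have hn1 : ∀ (a b : ℝ), ‖Complex.exp (Complex.I * (a : ℂ) * (b : ℂ))‖ = 1 := by
      intro a b
      rw [Complex.norm_exp]
      simp
    have hint : ∀ (a : ℝ), ∫ s in (0 : ℝ)..t, a * (s ^ n / (n.factorial : ℝ)) =
        a * (t ^ (n + 1) / ((n + 1).factorial : ℝ)) := by
      intro a
      rw [intervalIntegral.integral_const_mul, intervalIntegral.integral_div, integral_pow]
      simp only [ne_eq, Nat.add_eq_zero_iff, one_ne_zero, and_false, not_false_eq_true, zero_pow,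
        sub_zero]
      rw [Nat.factorial_succ]
      push_cast
      field_simp
    constructor
    · -- the norm bound
      have e1 : ‖ep F c' t‖ = ‖∫ s in (0 : ℝ)..t, G s‖ := by
        rw [← hc' t, norm_mul, hn1, one_mul]
      rw [e1]
      have h2 : ‖∫ s in (0 : ℝ)..t, G s‖ ≤ ∫ s in (0 : ℝ)..t, (1 : ℝ) * (s ^ n / (n.factorial : ℝ)) := by
        apply intervalIntegral.norm_integral_le_of_norm_le ht
        · refine Eventually.of_forall fun s hs => ?_
          rw [hG]
          simp only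
          rw [norm_mul, norm_mul, hn1, hn1, one_mul, one_mul, one_mul]
          exact (hc s hs.1.le).1
        · apply Continuous.intervalIntegrable
          fun_prop
      rw [hint, one_mul] at h2
      exact h2
    · rw [hc' t]
      have h3 : ((t ^ (n + 1) / ((n + 1).factorial : ℝ) : ℝ) : ℂ) =
          ∫ s in (0 : ℝ)..t, ((s ^ n / (n.factorial : ℝ) : ℝ) : ℂ) := by
        have := hint 1
        simp only [one_mul] at this
        rw [← this, intervalIntegral.integral_ofReal]
      rw [h3, ← intervalIntegral.integral_sub]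
      · have h4 : ‖∫ s in (0 : ℝ)..t, (G s - ((s ^ n / (n.factorial : ℝ) : ℝ) : ℂ))‖ ≤
            ∫ s in (0 : ℝ)..t, (η * t) * (s ^ n / (n.factorial : ℝ)) := by
          apply intervalIntegral.norm_integral_le_of_norm_le ht
          · refine Eventually.of_forall fun s hs => ?_
            have hs0 : 0 ≤ s := hs.1.le
            have hst : s ≤ t := hs.2
            have h5 := (hc s hs0).2
            have hpos : 0 ≤ s ^ n / (n.factorial : ℝ) := by positivity
            have e6 : G s - ((s ^ n / (n.factorial : ℝ) : ℝ) : ℂ) =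
                Complex.exp (Complex.I * ((u - x : ℝ) : ℂ) * ((t - s : ℝ) : ℂ)) *
                (Complex.exp (Complex.I * (u : ℂ) * (s : ℂ)) * ep F' c s -
                  ((s ^ n / (n.factorial : ℝ) : ℝ) : ℂ)) +
                (Complex.exp (Complex.I * ((u - x : ℝ) : ℂ) * ((t - s : ℝ) : ℂ)) - 1) *
                  ((s ^ n / (n.factorial : ℝ) : ℝ) : ℂ) := by
              rw [hG]
              ring
            rw [e6]
            refine (norm_add_le _ _).trans ?_
            rw [norm_mul, norm_mul, hn1, one_mul]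
            have h7 : ‖Complex.exp (Complex.I * ((u - x : ℝ) : ℂ) * ((t - s : ℝ) : ℂ)) - 1‖ ≤
                η * (t - s) := by
              have h8 := norm_exp_sub_one_le ((u - x) * (t - s))
              have e : Complex.I * ((u - x : ℝ) : ℂ) * ((t - s : ℝ) : ℂ) =
                  Complex.I * (((u - x) * (t - s) : ℝ) : ℂ) := by push_cast; ring
              rw [e]
              refine h8.trans ?_
              rw [abs_mul, abs_of_nonneg (by linarith : 0 ≤ t - s), abs_sub_comm]
              exact mul_le_mul_of_nonneg_right (hη' x hxF) (by linarith)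
            have h9 : ‖((s ^ n / (n.factorial : ℝ) : ℝ) : ℂ)‖ = s ^ n / (n.factorial : ℝ) := by
              rw [Complex.norm_real, Real.norm_of_nonneg hpos]
            rw [h9]
            calc _ ≤ η * s * (s ^ n / (n.factorial : ℝ)) +
                  η * (t - s) * (s ^ n / (n.factorial : ℝ)) :=
                  add_le_add h5 (mul_le_mul_of_nonneg_right h7 hpos)
              _ = _ := by ring
          · apply Continuous.intervalIntegrable
            fun_prop
        rw [hint] at h4
        exact h4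
      · exact hGc.intervalIntegrable _ _
      · apply Continuous.intervalIntegrable
        fun_prop

/-- CLU: the inequality bounds the local number of frequencies. -/
theorem clu0 {φ : ℝ → ℝ} (K : Set ℝ) (C T : ℝ) (hT : 0 < T)
    (h : ∀ F : Finset ℝ, (∀ x ∈ F, x ∈ K) → ∀ (c : ℝ → ℂ) (m : ℝ),
      (∀ t, 0 ≤ t → t ≤ T → ‖ep F c t‖ ≤ m) → ∀ s, ‖ep F c s‖ ≤ C * m * φ (-|s|)) :
    ∃ N : ℕ, ∀ (y : ℝ) (F : Finset ℝ), (∀ x ∈ F, x ∈ K ∧ y ≤ x ∧ x ≤ y + 1) → F.card ≤ N := by
  classical
  set η : ℝ := 1 / (8 * T) with hη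
  have hη0 : 0 < η := by positivity
  -- clusters of diameter at most η
  obtain ⟨n0, hn0⟩ : ∃ n0 : ℕ, ∀ (u : ℝ) (F : Finset ℝ), (∀ x ∈ F, x ∈ K) →
      (∀ x ∈ F, |x - u| ≤ η) → F.card ≤ n0 := by
    obtain ⟨n1, hn1⟩ := exists_nat_gt (2 * C * φ (-|4 * T|))
    refine ⟨n1 + 1, fun u F hF hu => ?_⟩
    by_contra hcon
    push Not at hcon
    obtain ⟨n, hn⟩ : ∃ n : ℕ, F.card = n + 1 := ⟨F.card - 1, by omega⟩
    obtain ⟨c, hc⟩ := exists_cluster_sum η u n F hn hu
    have hfac : (0 : ℝ) < (n.factorial : ℝ) := by positivity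
    have h1 := h F hF c (T ^ n / (n.factorial : ℝ)) (by
      intro t ht1 ht2
      refine (hc t ht1).1.trans ?_
      gcongr) (4 * T)
    have h2 := (hc (4 * T) (by positivity)).2
    have h3 : ‖(((4 * T) ^ n / (n.factorial : ℝ) : ℝ) : ℂ)‖ = (4 * T) ^ n / (n.factorial : ℝ) := by
      rw [Complex.norm_real, Real.norm_of_nonneg (by positivity)]
    have h4 : (4 * T) ^ n / (n.factorial : ℝ) ≤ ‖ep F c (4 * T)‖ +
        1 / 2 * ((4 * T) ^ n / (n.factorial : ℝ)) := by
      have h5 : ‖Complex.exp (Complex.I * (u : ℂ) * ((4 * T : ℝ) : ℂ)) * ep F c (4 * T)‖ =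
          ‖ep F c (4 * T)‖ := by
        rw [norm_mul]
        have : ‖Complex.exp (Complex.I * (u : ℂ) * ((4 * T : ℝ) : ℂ))‖ = 1 := by
          rw [Complex.norm_exp]
          simp
        rw [this, one_mul]
      have h6 : η * (4 * T) = 1 / 2 := by
        rw [hη]
        field_simp
        norm_num
      rw [h6] at h2
      have h7 := norm_sub_norm_le (((4 * T) ^ n / (n.factorial : ℝ) : ℝ) : ℂ)
        (Complex.exp (Complex.I * (u : ℂ) * ((4 * T : ℝ) : ℂ)) * ep F c (4 * T))
      rw [norm_sub_rev, h3, h5] at h7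
      linarith
    have h8 : (4 * T) ^ n / (n.factorial : ℝ) = 4 ^ n * (T ^ n / (n.factorial : ℝ)) := by
      rw [mul_pow]
      ring
    have hT' : 0 < T ^ n / (n.factorial : ℝ) := by positivity
    rw [h8] at h4
    have h9 : (4 : ℝ) ^ n * (T ^ n / (n.factorial : ℝ)) ≤
        (2 * C * φ (-|4 * T|)) * (T ^ n / (n.factorial : ℝ)) := by
      nlinarith
    have h10 : (4 : ℝ) ^ n ≤ 2 * C * φ (-|4 * T|) := le_of_mul_le_mul_right h9 hT'
    have h11 : (n : ℝ) < (4 : ℝ) ^ n := by
      have : n < 4 ^ n := Nat.lt_pow_self (by norm_num)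
      exact_mod_cast this
    have h12 : (n1 : ℝ) ≤ n := by
      have : n1 ≤ n := by omega
      exact_mod_cast this
    linarith
  -- pigeonhole
  obtain ⟨M, hM⟩ := exists_nat_gt (1 / η)
  refine ⟨(M + 1) * n0, fun y F hF => ?_⟩
  by_contra hcon
  push Not at hcon
  have hmaps : ∀ x ∈ F, ⌊(x - y) / η⌋₊ ∈ Finset.range (M + 1) := by
    intro x hx
    obtain ⟨_, h1, h2⟩ := hF x hx
    rw [Finset.mem_range, Nat.lt_succ_iff]
    apply Nat.floor_le_of_le
    calc (x - y) / η ≤ 1 / η := by
          apply div_le_div_of_nonneg_right _ hη0.le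
          linarith
      _ ≤ M := hM.le
  obtain ⟨j, _, hj⟩ := Finset.exists_lt_card_fiber_of_mul_lt_card_of_maps_to hmaps
    (by rw [Finset.card_range]; exact hcon)
  set F' := F.filter (fun x => ⌊(x - y) / η⌋₊ = j) with hF'
  have h1 := hn0 (y + j * η) F' (fun x hx => (hF x (Finset.mem_filter.mp hx).1).1) (by
    intro x hx
    obtain ⟨hxF, hxj⟩ := Finset.mem_filter.mp hx
    obtain ⟨_, h1, h2⟩ := hF x hxF
    have h3 : 0 ≤ (x - y) / η := div_nonneg (by linarith) hη0.le
    have h4 := Nat.floor_le h3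
    have h5 := Nat.lt_floor_add_one ((x - y) / η)
    rw [hxj] at h4 h5
    rw [le_div_iff₀ hη0] at h4
    rw [div_lt_iff₀ hη0] at h5
    rw [abs_le]
    constructor <;> nlinarith)
  omega

end

end Pool.Agent.Helper7_WK
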