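import Pool.Agent.Helper7_WK.Refl0

/-!
# MP_7d2497_an: correlations
-/

namespace Pool.Agent.Helper7_WK

open MeasureTheory Filter Topology Complex
open Pool.Agent.H78E

noncomputable section

variable {φ : ℝ → ℝ}

/-- The correlation `s ↦ ∫ f(t) g(t+s) dt`. -/
def cr (g f : ℝ → ℂ) (s : ℝ) : ℂ := ∫ t : ℝ, f t * g (t + s)

theorem ae_add {p : ℝ → Prop} (s : ℝ) (h : ∀ᵐ t : ℝ, p t) : ∀ᵐ t : ℝ, p (t + s) :=
  (measurePreserving_add_right volume s).quasiMeasurePreserving.ae h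

theorem cr_congr {g g' f f' : ℝ → ℂ} (hg : g =ᵐ[volume] g') (hf : f =ᵐ[volume] f') :
    cr g f = cr g' f' := by
  ext s
  unfold cr
  apply integral_congr_ae
  filter_upwards [ae_add s hg, hf] with t h1 h2
  rw [h1, h2]

/-- A measurable representative of an integrable function. -/
theorem rep1 (hφ : IsWeight φ) {f : ℝ → ℂ} (hf : L1 φ f) :
    ∃ f' : ℝ → ℂ, Measurable f' ∧ Integrable (fun t => φ t * ‖f' t‖) ∧ f' =ᵐ[volume] f := by
  obtain ⟨hm, hi⟩ := hf
  refine ⟨hm.mk f, hm.stronglyMeasurable_mk.measurable, ?_, hm.ae_eq_mk.symm⟩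
  refine hi.congr ?_
  filter_upwards [hm.ae_eq_mk] with t ht
  rw [← ht]

theorem cr_measurable {g f : ℝ → ℂ} (hf : Measurable f) (hg : Measurable g) :
    Measurable (cr g f) :=
  Pool.Agent.Helper15_E.Gs_measurable hf hg 1

theorem cr_linf (hφ : IsWeight φ) {g f : ℝ → ℂ} (hg : LInf φ g) (hf : L1 φ f) :
    LInf φ (cr g f) := by
  obtain ⟨g', C, hgm, hgb, hge⟩ := Pool.Agent.Helper15_E.rep hg hφ
  obtain ⟨f', hfm, hfi, hfe⟩ := rep1 hφ hf
  rw [← cr_congr hge hfe]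
  refine ⟨(cr_measurable hfm hgm).aestronglyMeasurable, C * ∫ t, φ t * ‖f' t‖, ?_⟩
  exact Eventually.of_forall fun s => Pool.Agent.Helper15_E.norm_integral_le_Q hφ hfi hgb s

theorem cr_mem_B (hBi : BipolarStmt) (hφ : IsWeight φ) {g f : ℝ → ℂ} (hg : LInf φ g)
    (hf : L1 φ f) : cr g f ∈ B φ g := by
  rw [hBi φ hφ g (cr g f) hg (cr_linf hφ hg hf)]
  intro u hu h0
  obtain ⟨g', C, hgm, hgb, hge⟩ := Pool.Agent.Helper15_E.rep hg hφ
  obtain ⟨f', hfm, hfi, hfe⟩ := rep1 hφ hf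
  obtain ⟨u', hum, hui, hue⟩ := rep1 hφ hu
  have h1 : ∀ s, ∫ t, u' t * g' (t + s) = 0 := by
    intro s
    have h2 := congrFun (cr_congr hge hue) s
    unfold cr at h2
    rw [h2, h0 s]
  have h3 := Pool.Agent.Helper15_E.Gs_ann hφ hum hui hfm hfi hgm hgb h1 1 0
  rw [← h3]
  apply integral_congr_ae
  filter_upwards [hue] with t ht
  rw [← ht, add_zero, ← cr_congr hge hfe]
  rfl

theorem B_sub {g h : ℝ → ℂ} (hh : h ∈ B φ g) : B φ h ⊆ B φ g := by
  intro u hu
  refine ⟨hu.1, fun V h1 h2 h3 h4 => ?_⟩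
  exact hu.2 V h1 (hh.2 V h1 h2 h3 h4) h3 h4

theorem Spec_sub {g h : ℝ → ℂ} (hh : h ∈ B φ g) : Spec φ h ⊆ Spec φ g :=
  fun _ hx => B_sub hh hx

theorem Spec_cr (hBi : BipolarStmt) (hφ : IsWeight φ) {g f : ℝ → ℂ} (hg : LInf φ g)
    (hf : L1 φ f) : Spec φ (cr g f) ⊆ Spec φ g := Spec_sub (cr_mem_B hBi hφ hg hf)

theorem BPos_sub {g h : ℝ → ℂ} (hh : h ∈ BPos φ g) : BPos φ h ⊆ BPos φ g := by
  intro u hu
  refine ⟨hu.1, fun V h1 h2 h3 h4 => ?_⟩
  exact hu.2 V h1 (hh.2 V h1 h2 h3 h4) h3 h4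

/-- An almost everywhere bound of a continuous function by the weight is a bound everywhere. -/
theorem bound_all (hφ : IsWeight φ) : ∃ B : ℝ, 1 ≤ B ∧ ∀ (p : ℝ → ℂ), Continuous p → ∀ (A : ℝ),
    0 ≤ A → (∀ᵐ t : ℝ, ‖p t‖ ≤ A * φ t) → ∀ t, ‖p t‖ ≤ B * A * φ t := by
  obtain ⟨B, hB1, hB⟩ := weight_loc hφ 1
  refine ⟨B, hB1, fun p hp A hA h t => ?_⟩
  by_contra hcon
  push Not at hcon
  have hev : ∀ᶠ s in 𝓝 t, B * A * φ t < ‖p s‖ := by
    have : Continuous fun s => ‖p s‖ := hp.norm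
    exact this.continuousAt.eventually_const_lt hcon
  obtain ⟨δ, hδ, hδ2⟩ := Metric.eventually_nhds_iff.mp hev
  set S : Set ℝ := Set.Ioo t (t + min δ 1) with hS
  have hSpos : 0 < volume S := by
    rw [hS, Real.volume_Ioo]
    simp only [add_sub_cancel_left, ENNReal.ofReal_pos]
    exact lt_min hδ one_pos
  have h2 : ∀ᵐ s : ℝ, s ∉ S := by
    filter_upwards [h] with s hs hsS
    have h3 : s - t < min δ 1 := by
      have := hsS.2
      linarith
    have h4 : 0 < s - t := by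
      have := hsS.1
      linarith
    have h5 := hδ2 (y := s) (by
      rw [Real.dist_eq, abs_of_pos h4]
      exact h3.trans_le (min_le_left _ _))
    have h6 : φ s ≤ φ t * B := by
      have e : s = t + (s - t) := by ring
      rw [e]
      refine (hφ.submul _ _).trans ?_
      apply mul_le_mul_of_nonneg_left _ (weight_pos hφ t).le
      apply hB
      rw [abs_of_pos h4]
      exact (h3.trans_le (min_le_right _ _)).le
    have h7 : ‖p s‖ ≤ B * A * φ t := by
      calc ‖p s‖ ≤ A * φ s := hs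
        _ ≤ A * (φ t * B) := mul_le_mul_of_nonneg_left h6 hA
        _ = _ := by ring
    linarith
  have h3 : volume S = 0 := by
    have := ae_iff.mp h2
    simpa using this
  rw [h3] at hSpos
  exact lt_irrefl _ hSpos

theorem continuous_expR (x : ℝ) : Continuous (expR x) := by
  unfold expR
  fun_prop

theorem continuous_ep (F : Finset ℝ) (c : ℝ → ℂ) : Continuous (ep F c) := by
  unfold ep
  exact continuous_finsetSum _ fun x _ => continuous_const.mul (continuous_expR x)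

theorem ep_linf (hφ : IsWeight φ) (F : Finset ℝ) (c : ℝ → ℂ) : LInf φ (ep F c) := by
  refine ⟨(continuous_ep F c).aestronglyMeasurable, ∑ x ∈ F, ‖c x‖, Eventually.of_forall fun t => ?_⟩
  refine (norm_ep_le F c t).trans ?_
  exact le_mul_of_one_le_right (Finset.sum_nonneg fun _ _ => norm_nonneg _) (hφ.one_le t)

end

end Pool.Agent.Helper7_WK
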