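import Pool.Agent.Helper7_WK.Cr
import Pool.Agent.Helper78_E.Base

/-!
# MP_7d2497_an: correlations are continuous
-/

namespace Pool.Agent.Helper7_WK

open MeasureTheory Filter Topology Complex
open Pool.Agent.H78E

noncomputable section

variable {φ : ℝ → ℝ}

theorem cr_shift (g f : ℝ → ℂ) (s : ℝ) : cr g f s = ∫ t : ℝ, f (t - s) * g t := by
  unfold cr
  have := integral_sub_right_eq_self (μ := (volume : Measure ℝ)) (fun t => f t * g (t + s)) s
  rw [← this]
  simp

theorem cr_continuous (hφ : IsWeight φ) {g f : ℝ → ℂ} (hg : LInf φ g) (hf : L1 φ f) :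
    Continuous (cr g f) := by
  have pos := weight_pos hφ
  obtain ⟨g', C, hgm, hgb, hge⟩ := Pool.Agent.Helper15_E.rep hg hφ
  obtain ⟨f', hfm, hfi, hfe⟩ := rep1 hφ hf
  rw [← cr_congr hge hfe]
  have hC0 : 0 ≤ C := by
    have h1 := hgb 0
    have h2 := norm_nonneg (g' 0)
    have h3 := hφ.one_le 0
    nlinarith
  rw [continuous_iff_continuousAt]
  intro s0
  rw [Metric.continuousAt_iff]
  intro ε hε
  obtain ⟨B0, hB01, hB0⟩ := weight_loc hφ (|s0| + 1)
  obtain ⟨T, hT0, p, q, hpm, hpi, hp0, hqm, hqi, hpq, hqs⟩ :=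
    Pool.Agent.Helper15_E.exists_trunc hφ hfm hfi (δ := ε / (4 * (C + 1) * B0)) (by positivity)
  obtain ⟨B1, hB11, hB1⟩ := weight_loc hφ (T + |s0| + 1)
  have hpI : Integrable p volume := by
    refine hpi.mono' hpm.aestronglyMeasurable (Eventually.of_forall fun t => ?_)
    calc ‖p t‖ = 1 * ‖p t‖ := (one_mul _).symm
      _ ≤ φ t * ‖p t‖ := mul_le_mul_of_nonneg_right (hφ.one_le t) (norm_nonneg _)
  set P : X := (memLp_one_iff_integrable.mpr hpI).toLp p with hP
  have hPe : (P : ℝ → ℂ) =ᵐ[volume] p := (memLp_one_iff_integrable.mpr hpI).coeFn_toLp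
  have hcont : ContinuousAt (fun s => tr s P) s0 := (tr_continuous P).continuousAt
  rw [Metric.continuousAt_iff] at hcont
  obtain ⟨δ, hδ, hδ2⟩ := hcont (ε / (2 * (C + 1) * B1)) (by positivity)
  refine ⟨min δ 1, lt_min hδ one_pos, fun s hs => ?_⟩
  have hs1 : dist s s0 < δ := hs.trans_le (min_le_left _ _)
  have hs2 : |s - s0| < 1 := by
    rw [Real.dist_eq] at hs
    exact hs.trans_le (min_le_right _ _)
  have hsabs : |s| ≤ |s0| + 1 := by
    have := abs_add_le s0 (s - s0)
    rw [add_sub_cancel] at this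
    linarith
  -- splitting
  have hsplit : ∀ v, cr g' f' v = cr g' p v + cr g' q v := by
    intro v
    unfold cr
    rw [← integral_add (Pool.Agent.Helper15_E.integrable_mul_shift hφ hpm hpi hgm hgb v)
      (Pool.Agent.Helper15_E.integrable_mul_shift hφ hqm hqi hgm hgb v)]
    congr 1
    ext1 t
    rw [hpq t]
    ring
  have hq : ∀ v, |v| ≤ |s0| + 1 → ‖cr g' q v‖ ≤ ε / 4 := by
    intro v hv
    have h1 := Pool.Agent.Helper15_E.norm_integral_le_Q hφ hqi hgb v
    have h2 : 0 ≤ ∫ t, φ t * ‖q t‖ :=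
      integral_nonneg fun t => mul_nonneg (pos t).le (norm_nonneg _)
    calc ‖cr g' q v‖ ≤ C * (∫ t, φ t * ‖q t‖) * φ v := h1
      _ ≤ (C + 1) * (ε / (4 * (C + 1) * B0)) * B0 := by
          apply mul_le_mul _ (hB0 v hv) (pos v).le (by positivity)
          apply mul_le_mul (by linarith) hqs.le h2 (by positivity)
      _ = ε / 4 := by
          field_simp
  have hpp : ‖cr g' p s - cr g' p s0‖ < ε / 2 := by
    rw [cr_shift, cr_shift, ← integral_sub]
    · have h1 : ‖∫ t : ℝ, (p (t - s) * g' t - p (t - s0) * g' t)‖ ≤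
          ∫ t : ℝ, (C * B1) * ‖p (t - s) - p (t - s0)‖ := by
        refine norm_integral_le_of_norm_le ?_ (Eventually.of_forall fun t => ?_)
        · exact ((hpI.comp_sub_right s).sub (hpI.comp_sub_right s0)).norm.const_mul _
        · rw [← sub_mul, norm_mul, mul_comm]
          by_cases ht : |t| ≤ T + |s0| + 1
          · apply mul_le_mul_of_nonneg_right _ (norm_nonneg _)
            calc ‖g' t‖ ≤ C * φ t := hgb t
              _ ≤ C * B1 := mul_le_mul_of_nonneg_left (hB1 t ht) hC0
          · push Not at ht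
            have e1 : p (t - s) = 0 := by
              apply hp0
              have := abs_sub_abs_le_abs_sub t s
              linarith
            have e2 : p (t - s0) = 0 := by
              apply hp0
              have := abs_sub_abs_le_abs_sub t s0
              linarith
            rw [e1, e2]
            simp
      have h2 : ∫ t : ℝ, ‖p (t - s) - p (t - s0)‖ = ‖tr s P - tr s0 P‖ := by
        rw [L1.norm_eq_integral_norm]
        apply integral_congr_ae
        filter_upwards [Lp.coeFn_sub (tr s P) (tr s0 P), tr_coe s P, tr_coe s0 P,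
          ae_shift s hPe, ae_shift s0 hPe] with t h1 h2 h3 h4 h5
        rw [h1, Pi.sub_apply, h2, h3, h4, h5]
      rw [integral_const_mul, h2] at h1
      have h3 := hδ2 hs1
      rw [dist_eq_norm] at h3
      calc _ ≤ C * B1 * ‖tr s P - tr s0 P‖ := h1
        _ ≤ (C + 1) * B1 * ‖tr s P - tr s0 P‖ := by
            apply mul_le_mul_of_nonneg_right _ (norm_nonneg _)
            apply mul_le_mul_of_nonneg_right _ (by linarith)
            linarith
        _ < (C + 1) * B1 * (ε / (2 * (C + 1) * B1)) := by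
            apply mul_lt_mul_of_pos_left h3 (by positivity)
        _ = ε / 2 := by field_simp
    · have := Pool.Agent.Helper15_E.integrable_mul_shift hφ hpm hpi hgm hgb s
      have h2 := this.comp_sub_right s
      refine h2.congr (Eventually.of_forall fun t => ?_)
      simp
    · have := Pool.Agent.Helper15_E.integrable_mul_shift hφ hpm hpi hgm hgb s0
      have h2 := this.comp_sub_right s0
      refine h2.congr (Eventually.of_forall fun t => ?_)
      simp
  rw [dist_eq_norm, hsplit, hsplit]
  have e : cr g' p s + cr g' q s - (cr g' p s0 + cr g' q s0) =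
      (cr g' p s - cr g' p s0) + cr g' q s - cr g' q s0 := by ring
  rw [e]
  have h1 := hq s hsabs
  have h2 := hq s0 (by linarith)
  calc ‖(cr g' p s - cr g' p s0) + cr g' q s - cr g' q s0‖
      ≤ ‖(cr g' p s - cr g' p s0) + cr g' q s‖ + ‖cr g' q s0‖ := norm_sub_le _ _
    _ ≤ ‖cr g' p s - cr g' p s0‖ + ‖cr g' q s‖ + ‖cr g' q s0‖ := by
        gcongr
        exact norm_add_le _ _
    _ < ε := by linarith

/-- A correlation vanishing almost everywhere vanishes everywhere. -/
theorem cr_eq_zero (hφ : IsWeight φ) {g f : ℝ → ℂ} (hg : LInf φ g) (hf : L1 φ f)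
    (h : cr g f =ᵐ[volume] 0) (s : ℝ) : cr g f s = 0 := by
  have h1 : cr g f = 0 :=
    (Continuous.ae_eq_iff_eq volume (cr_continuous hφ hg hf) continuous_zero).mp h
  rw [h1]
  rfl

end

end Pool.Agent.Helper7_WK
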