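import Pool.Agent.Helper7_WK.Cr
import Pool.Agent.Helper72_E.Bip
import Pool.Agent.Helper78_E.Dict

/-!
# MP_7d2497_an: the open mapping theorem for extensions
-/

namespace Pool.Agent.Helper7_WK

open MeasureTheory Filter Topology Complex
open Pool.Agent.H78E

noncomputable section

variable {φ : ℝ → ℝ}

/-- The norm of a functional bounds its representing function. -/
theorem ae_bound_of_functional {h : ℝ → ℂ} (hm : Measurable h) {C0 : ℝ} (hC0 : ∀ t, ‖h t‖ ≤ C0)
    {ℓ : X →L[ℂ] ℂ} (hr : RepX ℓ h) {M : ℝ} (hM : ‖ℓ‖ ≤ M) : ∀ᵐ t : ℝ, ‖h t‖ ≤ M := by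
  have key : ∀ (n : ℕ), volume ({t : ℝ | M + 1 / ((n : ℝ) + 1) < ‖h t‖} ∩ Set.Icc (-(n : ℝ)) n) = 0 := by
    intro n
    set S : Set ℝ := {t : ℝ | M + 1 / ((n : ℝ) + 1) < ‖h t‖} ∩ Set.Icc (-(n : ℝ)) n with hS
    have hSm : MeasurableSet S :=
      (measurableSet_lt measurable_const hm.norm).inter measurableSet_Icc
    have hSf : volume S < ⊤ := lt_of_le_of_lt (measure_mono Set.inter_subset_right)
      (by rw [Real.volume_Icc]; exact ENNReal.ofReal_lt_top)
    set F : ℝ → ℂ := S.indicator (fun t => (starRingEnd ℂ) (h t) / (‖h t‖ : ℂ)) with hF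
    have hFm : Measurable F := by
      refine Measurable.indicator ?_ hSm
      exact ((continuous_star (R := ℂ)).measurable.comp hm).div
        (Complex.measurable_ofReal.comp hm.norm)
    have hFb : ∀ t, ‖F t‖ ≤ S.indicator (fun _ => (1 : ℝ)) t := by
      intro t
      by_cases ht : t ∈ S
      · rw [hF, Set.indicator_of_mem ht, Set.indicator_of_mem ht, norm_div, Complex.norm_conj,
          Complex.norm_real, norm_norm]
        exact div_self_le_one _
      · rw [hF, Set.indicator_of_notMem ht, Set.indicator_of_notMem ht, norm_zero]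
    have hi1 : Integrable (S.indicator (fun _ => (1 : ℝ))) volume := by
      rw [integrable_indicator_iff hSm]
      exact integrableOn_const (C := (1 : ℝ)) hSf.ne
    have hFi : Integrable F volume := hi1.mono' hFm.aestronglyMeasurable (Eventually.of_forall hFb)
    set f : X := (memLp_one_iff_integrable.mpr hFi).toLp F with hf
    have hfe : (f : ℝ → ℂ) =ᵐ[volume] F := (memLp_one_iff_integrable.mpr hFi).coeFn_toLp
    have hfn : ‖f‖ ≤ (volume S).toReal := by
      rw [L1.norm_eq_integral_norm]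
      have h1 : ∫ t : ℝ, ‖(f : ℝ → ℂ) t‖ ≤ ∫ t : ℝ, S.indicator (fun _ => (1 : ℝ)) t := by
        apply integral_mono_ae (L1.integrable_coeFn f).norm hi1
        filter_upwards [hfe] with t ht
        rw [ht]
        exact hFb t
      rw [integral_indicator hSm, setIntegral_const, smul_eq_mul, mul_one] at h1
      exact h1
    have h2 : ‖ℓ f‖ ≤ M * (volume S).toReal := by
      calc ‖ℓ f‖ ≤ ‖ℓ‖ * ‖f‖ := ℓ.le_opNorm f
        _ ≤ M * (volume S).toReal :=
          mul_le_mul hM hfn (norm_nonneg _) ((norm_nonneg _).trans hM)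
    have h3 : ℓ f = ((∫ t in S, ‖h t‖ : ℝ) : ℂ) := by
      rw [hr, ← integral_complex_ofReal, ← integral_indicator hSm]
      apply integral_congr_ae
      filter_upwards [hfe] with t ht
      rw [ht, hF]
      by_cases hts : t ∈ S
      · rw [Set.indicator_of_mem hts, Set.indicator_of_mem hts, div_mul_eq_mul_div, mul_comm,
          Complex.mul_conj, Complex.normSq_eq_norm_sq]
        push_cast
        by_cases h0 : (‖h t‖ : ℂ) = 0
        · rw [h0]
          simp
        · field_simp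
      · rw [Set.indicator_of_notMem hts, Set.indicator_of_notMem hts, zero_mul]
    have hih : IntegrableOn (fun t => ‖h t‖) S volume := by
      refine Measure.integrableOn_of_bounded (M := |C0|) hSf.ne hm.norm.aestronglyMeasurable ?_
      refine Eventually.of_forall fun t => ?_
      rw [norm_norm]
      exact (hC0 t).trans (le_abs_self _)
    have h4 : (M + 1 / ((n : ℝ) + 1)) * (volume S).toReal ≤ ∫ t in S, ‖h t‖ := by
      have h5 : ∫ t in S, (M + 1 / ((n : ℝ) + 1)) ≤ ∫ t in S, ‖h t‖ := by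
        apply setIntegral_mono_on (integrableOn_const hSf.ne) hih hSm
        intro t ht
        exact ht.1.le
      rw [setIntegral_const, smul_eq_mul, mul_comm] at h5
      exact h5
    rw [h3, Complex.norm_real] at h2
    have h6 := (Real.norm_of_nonneg (integral_nonneg (μ := volume.restrict S)
      (f := fun t => ‖h t‖) (fun t => norm_nonneg _)))
    rw [h6] at h2
    have h7 : (1 / ((n : ℝ) + 1)) * (volume S).toReal ≤ 0 := by linarith
    have h8 : 0 < 1 / ((n : ℝ) + 1) := by positivity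
    have h9 : (volume S).toReal ≤ 0 := by
      by_contra hcon
      push Not at hcon
      have := mul_pos h8 hcon
      linarith
    have h10 : (volume S).toReal = 0 := le_antisymm h9 ENNReal.toReal_nonneg
    exact (ENNReal.toReal_eq_zero_iff _).mp h10 |>.resolve_right hSf.ne
  have h1 : volume (⋃ n : ℕ, ({t : ℝ | M + 1 / ((n : ℝ) + 1) < ‖h t‖} ∩ Set.Icc (-(n : ℝ)) n)) = 0 :=
    measure_iUnion_null key
  rw [ae_iff]
  refine measure_mono_null ?_ h1
  intro t ht
  simp only [Set.mem_ofPred_eq, not_le] at ht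
  obtain ⟨n1, hn1⟩ := exists_nat_gt (1 / (‖h t‖ - M))
  obtain ⟨n2, hn2⟩ := exists_nat_gt |t|
  have hpos : 0 < ‖h t‖ - M := by linarith
  rw [Set.mem_iUnion]
  refine ⟨max n1 n2, ?_, ?_⟩
  · simp only [Set.mem_ofPred_eq]
    have h2 : 1 / (((max n1 n2 : ℕ) : ℝ) + 1) < ‖h t‖ - M := by
      rw [div_lt_iff₀ (by positivity)]
      rw [div_lt_iff₀ hpos] at hn1
      have h3 : (n1 : ℝ) ≤ ((max n1 n2 : ℕ) : ℝ) := by exact_mod_cast le_max_left _ _
      nlinarith
    linarith
  · have h3 : (n2 : ℝ) ≤ ((max n1 n2 : ℕ) : ℝ) := by exact_mod_cast le_max_right _ _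
    rw [Set.mem_Icc]
    have h4 := abs_lt.mp hn2
    constructor <;> linarith

/-- Truncation to the half-line. -/
theorem exists_trunc : ∃ P : X →L[ℂ] X, ∀ F : X, (P F : ℝ → ℂ) =ᵐ[volume]
    (Set.Ici (0 : ℝ)).indicator (F : ℝ → ℂ) := by
  have hmem : ∀ F : X, MemLp ((Set.Ici (0 : ℝ)).indicator (F : ℝ → ℂ)) 1 volume := fun F =>
    (Lp.memLp F).indicator measurableSet_Ici
  have hc : ∀ F : X, ((hmem F).toLp _ : ℝ → ℂ) =ᵐ[volume]
      (Set.Ici (0 : ℝ)).indicator (F : ℝ → ℂ) := fun F => (hmem F).coeFn_toLp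
  refine ⟨LinearMap.mkContinuous
    { toFun := fun F => (hmem F).toLp _
      map_add' := ?_
      map_smul' := ?_ } 1 ?_, fun F => hc F⟩
  · intro a b
    apply Lp.ext
    filter_upwards [hc (a + b), hc a, hc b, Lp.coeFn_add a b,
      Lp.coeFn_add ((hmem a).toLp _) ((hmem b).toLp _)] with t h1 h2 h3 h4 h5
    rw [h1, h5, Pi.add_apply, h2, h3]
    by_cases ht : t ∈ Set.Ici (0 : ℝ)
    · rw [Set.indicator_of_mem ht, Set.indicator_of_mem ht, Set.indicator_of_mem ht, h4,
        Pi.add_apply]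
    · rw [Set.indicator_of_notMem ht, Set.indicator_of_notMem ht, Set.indicator_of_notMem ht,
        add_zero]
  · intro c a
    apply Lp.ext
    filter_upwards [hc (c • a), hc a, Lp.coeFn_smul c a,
      Lp.coeFn_smul c ((hmem a).toLp _)] with t h1 h2 h4 h5
    rw [h1, RingHom.id_apply, h5, Pi.smul_apply, h2]
    by_cases ht : t ∈ Set.Ici (0 : ℝ)
    · rw [Set.indicator_of_mem ht, Set.indicator_of_mem ht, h4, Pi.smul_apply]
    · rw [Set.indicator_of_notMem ht, Set.indicator_of_notMem ht, smul_zero]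
  · intro F
    rw [one_mul, L1.norm_eq_integral_norm, L1.norm_eq_integral_norm]
    apply integral_mono_ae (L1.integrable_coeFn _).norm (L1.integrable_coeFn F).norm
    filter_upwards [hc F] with t h1
    change ‖((hmem F).toLp _ : ℝ → ℂ) t‖ ≤ ‖(F : ℝ → ℂ) t‖
    rw [h1]
    exact norm_indicator_le_norm_self _ _

/-- OPEN: if every annihilating function on the half-line extends uniquely, the extension is
bounded. -/
theorem open_map (hDu : DualStmt) (hφ : IsWeight φ) (J : Set (ℝ → ℂ))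
    (hJ : ∀ f ∈ J, L1 φ f ∧ ∀ t, t < 0 → f t = 0)
    (hext : ∀ g, LInfPos φ g → (∀ f ∈ J, ∫ t : ℝ, f t * g t = 0) → ∃ G, LInf φ G ∧
      (∀ᵐ t : ℝ, 0 ≤ t → G t = g t) ∧ ∀ f ∈ J, ∀ s, cr G f s = 0)
    (huniq : ∀ G, LInf φ G → (∀ᵐ t : ℝ, 0 ≤ t → G t = 0) → (∀ f ∈ J, ∀ s, cr G f s = 0) →
      G =ᵐ[volume] 0) :
    ∃ C : ℝ, 0 < C ∧ ∀ G, LInf φ G → (∀ f ∈ J, ∀ s, cr G f s = 0) → ∀ A : ℝ, 0 ≤ A →
      (∀ᵐ t : ℝ, 0 ≤ t → ‖G t‖ ≤ A * φ t) → ∀ᵐ t : ℝ, ‖G t‖ ≤ C * A * φ t := by
  have pos := weight_pos hφ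
  -- translates of elements of `J`
  have hshift : ∀ f ∈ J, ∀ s : ℝ, ∀ G : ℝ → ℂ, cr G f s = ∫ t : ℝ, f (t - s) * G t := by
    intro f _ s G
    exact integral_shift72 f G s
  set E1 : Submodule ℂ (X →L[ℂ] ℂ) :=
    { carrier := {ℓ | ∀ f ∈ J, ∀ (s : ℝ) (F : X),
        ((F : ℝ → ℂ) =ᵐ[volume] fun t => (φ t : ℂ) * f (t - s)) → ℓ F = 0}
      add_mem' := by
        intro a b ha hb f hf s F hF
        rw [add_apply, ha f hf s F hF, hb f hf s F hF, add_zero]
      zero_mem' := by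
        intro f _ s F _
        rfl
      smul_mem' := by
        intro c a ha f hf s F hF
        rw [smul_apply, ha f hf s F hF, smul_zero] } with hE1
  obtain ⟨P, hP⟩ := exists_trunc
  have hPF : ∀ F : X, (∀ᵐ t : ℝ, t < 0 → (F : ℝ → ℂ) t = 0) → P F = F := by
    intro F hF
    apply Lp.ext
    filter_upwards [hP F, hF] with t h1 h2
    rw [h1]
    by_cases ht : t ∈ Set.Ici (0 : ℝ)
    · rw [Set.indicator_of_mem ht]
    · rw [Set.indicator_of_notMem ht, h2 (not_le.mp ht)]
  have hPn : ∀ F : X, ∀ᵐ t : ℝ, t < 0 → (P F : ℝ → ℂ) t = 0 := by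
    intro F
    filter_upwards [hP F] with t h1 h2
    rw [h1, Set.indicator_of_notMem (show t ∉ Set.Ici (0 : ℝ) from not_le.mpr h2)]
  have hPP : ∀ F : X, P (P F) = P F := fun F => hPF _ (hPn F)
  set E2 : Submodule ℂ (X →L[ℂ] ℂ) :=
    { carrier := {k | (∀ f ∈ J, ∀ (F : X),
        ((F : ℝ → ℂ) =ᵐ[volume] fun t => (φ t : ℂ) * f t) → k F = 0) ∧ ∀ F : X, k F = k (P F)}
      add_mem' := by
        intro a b ha hb
        refine ⟨fun f hf F hF => ?_, fun F => ?_⟩
        · rw [add_apply, ha.1 f hf F hF, hb.1 f hf F hF, add_zero]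
        · rw [add_apply, add_apply, ← ha.2 F, ← hb.2 F]
      zero_mem' := by
        refine ⟨fun f _ F _ => rfl, fun F => rfl⟩
      smul_mem' := by
        intro c a ha
        refine ⟨fun f hf F hF => ?_, fun F => ?_⟩
        · rw [smul_apply, ha.1 f hf F hF, smul_zero]
        · rw [smul_apply, smul_apply, ← ha.2 F] } with hE2
  have hc1 : IsClosed (E1 : Set (X →L[ℂ] ℂ)) := by
    have : (E1 : Set (X →L[ℂ] ℂ)) = ⋂ (f : ℝ → ℂ) (_ : f ∈ J) (s : ℝ) (F : X)
        (_ : (F : ℝ → ℂ) =ᵐ[volume] fun t => (φ t : ℂ) * f (t - s)), {ℓ : X →L[ℂ] ℂ | ℓ F = 0} := by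
      ext ℓ
      simp only [Set.mem_iInter]
      rfl
    rw [this]
    refine isClosed_iInter fun f => isClosed_iInter fun _ => isClosed_iInter fun s =>
      isClosed_iInter fun F => isClosed_iInter fun _ => ?_
    exact isClosed_eq (ContinuousLinearMap.apply ℂ ℂ F).continuous continuous_const
  have hc2 : IsClosed (E2 : Set (X →L[ℂ] ℂ)) := by
    have : (E2 : Set (X →L[ℂ] ℂ)) = (⋂ (f : ℝ → ℂ) (_ : f ∈ J) (F : X)
        (_ : (F : ℝ → ℂ) =ᵐ[volume] fun t => (φ t : ℂ) * f t), {ℓ : X →L[ℂ] ℂ | ℓ F = 0}) ∩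
        ⋂ (F : X), {ℓ : X →L[ℂ] ℂ | ℓ F = ℓ (P F)} := by
      ext ℓ
      simp only [Set.mem_iInter, Set.mem_inter_iff]
      rfl
    rw [this]
    refine IsClosed.inter ?_ ?_
    · refine isClosed_iInter fun f => isClosed_iInter fun _ =>
        isClosed_iInter fun F => isClosed_iInter fun _ => ?_
      exact isClosed_eq (ContinuousLinearMap.apply ℂ ℂ F).continuous continuous_const
    · refine isClosed_iInter fun F => ?_
      exact isClosed_eq (ContinuousLinearMap.apply ℂ ℂ F).continuous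
        (ContinuousLinearMap.apply ℂ ℂ (P F)).continuous
  have : CompleteSpace E1 := hc1.completeSpace_coe
  have : CompleteSpace E2 := hc2.completeSpace_coe
  set r0 : (X →L[ℂ] ℂ) →L[ℂ] (X →L[ℂ] ℂ) :=
    LinearMap.mkContinuous
      { toFun := fun ℓ : X →L[ℂ] ℂ => ℓ.comp P
        map_add' := fun a b => by ext F; rfl
        map_smul' := fun c a => by ext F; rfl } ‖P‖
      (fun ℓ => by
        have h1 := ContinuousLinearMap.opNorm_comp_le ℓ P
        calc ‖ℓ.comp P‖ ≤ ‖ℓ‖ * ‖P‖ := h1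
          _ = ‖P‖ * ‖ℓ‖ := by ring) with hr0
  have hr0a : ∀ (ℓ : X →L[ℂ] ℂ) (F : X), r0 ℓ F = ℓ (P F) := fun ℓ F => rfl
  set r : E1 →L[ℂ] E2 := (r0.comp E1.subtypeL).codRestrict E2 (by
    intro ℓ
    refine ⟨fun f hf F hF => ?_, fun F => ?_⟩
    · rw [ContinuousLinearMap.comp_apply, hr0a, hPF]
      · refine ℓ.2 f hf 0 F ?_
        simp only [sub_zero]
        exact hF
      · filter_upwards [hF] with t h1 h2
        rw [h1, (hJ f hf).2 t h2, mul_zero]
    · rw [ContinuousLinearMap.comp_apply, hr0a, hr0a, hPP]) with hr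
  have hra : ∀ (ℓ : E1) (F : X), (r ℓ : X →L[ℂ] ℂ) F = (ℓ : X →L[ℂ] ℂ) (P F) := fun ℓ F => rfl
  -- from functions to functionals
  have hfun : ∀ G : ℝ → ℂ, LInf φ G → (∀ f ∈ J, ∀ s, cr G f s = 0) →
      ∃ ℓ : E1, RepX (ℓ : X →L[ℂ] ℂ) (fun t => G t / (φ t : ℂ)) := by
    intro G hG hGJ
    obtain ⟨hGm, C, hC⟩ := hG
    have hm : AEStronglyMeasurable (fun t => G t / (φ t : ℂ)) volume :=
      hGm.div₀ (Complex.measurable_ofReal.comp hφ.meas).aestronglyMeasurable
    obtain ⟨ℓ, h1, _⟩ := exists_repX (fun t => G t / (φ t : ℂ)) hm C (by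
      filter_upwards [hC] with t ht
      rw [norm_div, Complex.norm_real, Real.norm_of_nonneg (pos t).le, div_le_iff₀ (pos t)]
      exact ht)
    refine ⟨⟨ℓ, ?_⟩, h1⟩
    intro f hf s F hF
    rw [h1]
    have h2 := hGJ f hf s
    rw [hshift f hf] at h2
    rw [← h2]
    apply integral_congr_ae
    filter_upwards [hF] with t ht
    rw [ht]
    have : (φ t : ℂ) ≠ 0 := by
      rw [Complex.ofReal_ne_zero]
      exact (pos t).ne'
    field_simp
  -- from functionals to functions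
  have hfun2 : ∀ ℓ : E1, ∃ G : ℝ → ℂ, LInf φ G ∧ (∀ f ∈ J, ∀ s, cr G f s = 0) ∧
      RepX (ℓ : X →L[ℂ] ℂ) (fun t => G t / (φ t : ℂ)) ∧
      ∀ᵐ t : ℝ, ‖G t‖ ≤ ‖ℓ‖ * φ t := by
    intro ℓ
    obtain ⟨h, hm, ⟨C, hC⟩, hrep⟩ := hDu (ℓ : X →L[ℂ] ℂ)
    have e1 : (fun t => (h t * (φ t : ℂ)) / (φ t : ℂ)) = h := by
      ext t
      have : (φ t : ℂ) ≠ 0 := by
        rw [Complex.ofReal_ne_zero]
        exact (pos t).ne'
      field_simp
    have hb : ∀ᵐ t : ℝ, ‖h t * (φ t : ℂ)‖ ≤ ‖ℓ‖ * φ t := by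
      filter_upwards [ae_bound_of_functional hm hC hrep le_rfl] with t ht
      rw [norm_mul, Complex.norm_real, Real.norm_of_nonneg (pos t).le]
      exact mul_le_mul_of_nonneg_right ht (pos t).le
    have hl : LInf φ (fun t => h t * (φ t : ℂ)) :=
      ⟨(hm.mul (Complex.measurable_ofReal.comp hφ.meas)).aestronglyMeasurable, ‖ℓ‖, hb⟩
    refine ⟨fun t => h t * (φ t : ℂ), hl, ?_, ?_, hb⟩
    · intro f hf s
      rw [hshift f hf]
      have hf1 : L1 φ (fun t => f (t - s)) := L1.shift72 hφ (hJ f hf).1 s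
      have hi : Integrable (fun t => (φ t : ℂ) * f (t - s)) volume := by
        refine hf1.2.mono' ((Complex.measurable_ofReal.comp hφ.meas).aestronglyMeasurable.mul hf1.1)
          (Eventually.of_forall fun t => ?_)
        rw [norm_mul, Complex.norm_real, Real.norm_of_nonneg (pos t).le]
      have h3 := ℓ.2 f hf s ((memLp_one_iff_integrable.mpr hi).toLp _)
        (memLp_one_iff_integrable.mpr hi).coeFn_toLp
      rw [hrep] at h3
      rw [← h3]
      apply integral_congr_ae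
      filter_upwards [(memLp_one_iff_integrable.mpr hi).coeFn_toLp] with t ht
      rw [ht]
      ring
    · rw [e1]
      exact hrep
  -- surjectivity
  have hsurj : Function.Surjective r := by
    intro k
    obtain ⟨h, hhm, ⟨C, hC⟩, hk⟩ := hDu (k : X →L[ℂ] ℂ)
    have hg : LInfPos φ (fun t => cut h t * (φ t : ℂ)) := by
      refine ⟨⟨(cut_aesm hhm.aestronglyMeasurable).mul
        (Complex.measurable_ofReal.comp hφ.meas).aestronglyMeasurable, max C 0,
        Eventually.of_forall fun t => ?_⟩, fun t ht => by simp only; rw [cut_of_neg _ ht, zero_mul]⟩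
      rw [norm_mul, Complex.norm_real, Real.norm_of_nonneg (pos t).le]
      apply mul_le_mul_of_nonneg_right _ (pos t).le
      by_cases ht : 0 ≤ t
      · rw [cut_of_nonneg _ ht]
        exact (hC t).trans (le_max_left _ _)
      · rw [cut_of_neg _ (not_le.mp ht), norm_zero]
        exact le_max_right _ _
    obtain ⟨G, hG, hGe, hGJ⟩ := hext _ hg (by
      intro f hf
      have hf1 : L1 φ f := (hJ f hf).1
      have hi : Integrable (fun t => (φ t : ℂ) * f t) volume := by
        refine hf1.2.mono' ((Complex.measurable_ofReal.comp hφ.meas).aestronglyMeasurable.mul hf1.1)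
          (Eventually.of_forall fun t => ?_)
        rw [norm_mul, Complex.norm_real, Real.norm_of_nonneg (pos t).le]
      have h3 := k.2.1 f hf ((memLp_one_iff_integrable.mpr hi).toLp _)
        (memLp_one_iff_integrable.mpr hi).coeFn_toLp
      rw [hk] at h3
      rw [← h3]
      apply integral_congr_ae
      filter_upwards [(memLp_one_iff_integrable.mpr hi).coeFn_toLp] with t ht
      rw [ht]
      by_cases h0 : 0 ≤ t
      · rw [cut_of_nonneg _ h0]
        ring
      · rw [(hJ f hf).2 t (not_le.mp h0)]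
        ring)
    obtain ⟨ℓ, hℓ⟩ := hfun G hG hGJ
    refine ⟨ℓ, ?_⟩
    apply Subtype.ext
    apply ContinuousLinearMap.ext
    intro F
    rw [hra, hℓ, k.2.2 F, hk]
    apply integral_congr_ae
    filter_upwards [hPn F, hGe] with t h1 h2
    rcases lt_or_ge t 0 with h | h
    · rw [h1 h, zero_mul, zero_mul]
    · rw [h2 h, cut_of_nonneg _ h]
      have : (φ t : ℂ) ≠ 0 := by
        rw [Complex.ofReal_ne_zero]
        exact (pos t).ne'
      field_simp
  have hopen : ∃ C > 0, ∀ k : E2, ∃ ℓ : E1, r ℓ = k ∧ ‖ℓ‖ ≤ C * ‖k‖ :=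
    ContinuousLinearMap.exists_preimage_norm_le (𝕜 := ℂ) (𝕜' := ℂ) (E := E1) (F := E2) r hsurj
  obtain ⟨C, hCpos, hC⟩ := hopen
  refine ⟨C, hCpos, ?_⟩
  intro G hG hGJ A hA hGA
  obtain ⟨ℓ0, hℓ0⟩ := hfun G hG hGJ
  -- the norm of the restriction
  have hk0 : ‖r ℓ0‖ ≤ A := by
    have h1 : ‖(r ℓ0 : X →L[ℂ] ℂ)‖ ≤ A := by
      apply ContinuousLinearMap.opNorm_le_bound _ hA
      intro F
      rw [hra, hℓ0, L1.norm_eq_integral_norm, ← integral_const_mul]
      refine norm_integral_le_of_norm_le ((L1.integrable_coeFn F).norm.const_mul A) ?_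
      filter_upwards [hGA, hP F] with t h3 h4
      rw [norm_mul, norm_div, Complex.norm_real, Real.norm_of_nonneg (pos t).le, mul_comm, h4]
      by_cases ht : t ∈ Set.Ici (0 : ℝ)
      · rw [Set.indicator_of_mem ht]
        apply mul_le_mul_of_nonneg_right _ (norm_nonneg _)
        rw [div_le_iff₀ (pos t)]
        exact h3 ht
      · rw [Set.indicator_of_notMem ht, norm_zero, mul_zero]
        positivity
    exact h1
  obtain ⟨ℓ, hℓr, hℓn⟩ := hC (r ℓ0)
  obtain ⟨G', hG', hG'J, hG'r, hG'b⟩ := hfun2 ℓ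
  -- the two functions agree on the half-line
  have hagree : ∀ᵐ t : ℝ, 0 ≤ t → G' t / (φ t : ℂ) = G t / (φ t : ℂ) := by
    have hgm : AEStronglyMeasurable (fun t => G t / (φ t : ℂ)) volume :=
      hG.1.div₀ (Complex.measurable_ofReal.comp hφ.meas).aestronglyMeasurable
    have hg'm : AEStronglyMeasurable (fun t => G' t / (φ t : ℂ)) volume :=
      hG'.1.div₀ (Complex.measurable_ofReal.comp hφ.meas).aestronglyMeasurable
    obtain ⟨C1, hC1⟩ := hG.2
    obtain ⟨C2, hC2⟩ := hG'.2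
    refine rep_unique (ℓ := ((r ℓ : X →L[ℂ] ℂ)).comp Y.subtypeL) (C := max C1 C2) ?_ ?_ hg'm hgm ?_ ?_
    · intro F
      have e : (((r ℓ : X →L[ℂ] ℂ)).comp Y.subtypeL) F = (r ℓ : X →L[ℂ] ℂ) (F : X) := rfl
      rw [e, hra, hPF _ F.2, hG'r]
    · intro F
      have e : (((r ℓ : X →L[ℂ] ℂ)).comp Y.subtypeL) F = (r ℓ : X →L[ℂ] ℂ) (F : X) := rfl
      rw [e, hℓr, hra, hPF _ F.2, hℓ0]
    · filter_upwards [hC2] with t ht _
      rw [norm_div, Complex.norm_real, Real.norm_of_nonneg (pos t).le, div_le_iff₀ (pos t)]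
      exact ht.trans (mul_le_mul_of_nonneg_right (le_max_right _ _) (pos t).le)
    · filter_upwards [hC1] with t ht _
      rw [norm_div, Complex.norm_real, Real.norm_of_nonneg (pos t).le, div_le_iff₀ (pos t)]
      exact ht.trans (mul_le_mul_of_nonneg_right (le_max_left _ _) (pos t).le)
  have hD : LInf φ (fun t => G' t - G t) := by
    obtain ⟨m1, C1, hC1⟩ := hG
    obtain ⟨m2, C2, hC2⟩ := hG'
    refine ⟨m2.sub m1, C2 + C1, ?_⟩
    filter_upwards [hC1, hC2] with t h1 h2
    calc ‖G' t - G t‖ ≤ ‖G' t‖ + ‖G t‖ := norm_sub_le _ _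
      _ ≤ (C2 + C1) * φ t := by linarith
  have hz := huniq _ hD (by
    filter_upwards [hagree] with t ht h0
    have h1 := ht h0
    have : (φ t : ℂ) ≠ 0 := by
      rw [Complex.ofReal_ne_zero]
      exact (pos t).ne'
    rw [div_left_inj' this] at h1
    rw [h1, sub_self]) (by
    intro f hf s
    have h1 := hG'J f hf s
    have h2 := hGJ f hf s
    rw [hshift f hf] at h1 h2 ⊢
    have hf1 : L1 φ (fun t => f (t - s)) := L1.shift72 hφ (hJ f hf).1 s
    have e : ∀ t : ℝ, f (t - s) * (G' t - G t) = f (t - s) * G' t - f (t - s) * G t :=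
      fun t => by ring
    simp_rw [e]
    rw [integral_sub (L1.mulInt72 hf1 hG') (L1.mulInt72 hf1 hG), h1, h2, sub_zero])
  have hln : ‖ℓ‖ ≤ C * A := hℓn.trans (mul_le_mul_of_nonneg_left hk0 hCpos.le)
  filter_upwards [hz, hG'b] with t h1 h2
  have h3 : G' t = G t := sub_eq_zero.mp h1
  rw [← h3]
  exact h2.trans (mul_le_mul_of_nonneg_right hln (pos t).le)

end

end Pool.Agent.Helper7_WK
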