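import Pool.Agent.Helper15_E.Line

/-!
# MP_7d2497_an: reflection of an inequality between the two half-lines
-/

namespace Pool.Agent.Helper7_WK

open MeasureTheory Filter Topology Complex
open Pool.Agent.H78E

noncomputable section

/-- Exponential sums. -/
def ep (F : Finset ℝ) (c : ℝ → ℂ) (t : ℝ) : ℂ := ∑ x ∈ F, c x * expR x t

theorem norm_expR (x t : ℝ) : ‖expR x t‖ = 1 := by
  unfold expR
  rw [Complex.norm_exp]
  simp

theorem norm_ep_le (F : Finset ℝ) (c : ℝ → ℂ) (t : ℝ) : ‖ep F c t‖ ≤ ∑ x ∈ F, ‖c x‖ := by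
  unfold ep
  refine (norm_sum_le _ _).trans (Finset.sum_le_sum fun x _ => ?_)
  rw [norm_mul, norm_expR, mul_one]

/-- The reflected sum. -/
theorem ep_reflect (F : Finset ℝ) (c : ℝ → ℂ) (t : ℝ) :
    ep F (fun x => (starRingEnd ℂ) (c x)) t = (starRingEnd ℂ) (ep F c (-t)) := by
  unfold ep
  rw [map_sum]
  refine Finset.sum_congr rfl fun x _ => ?_
  rw [map_mul]
  congr 1
  unfold expR
  rw [← Complex.exp_conj]
  congr 1
  simp

/-- The translated sum. -/
theorem ep_translate (F : Finset ℝ) (c : ℝ → ℂ) (a t : ℝ) :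
    ep F (fun x => c x * expR x a) t = ep F c (t + a) := by
  unfold ep
  refine Finset.sum_congr rfl fun x _ => ?_
  rw [mul_assoc]
  congr 1
  unfold expR
  rw [← Complex.exp_add]
  congr 1
  push_cast
  ring

theorem weight_pos {φ : ℝ → ℝ} (hφ : IsWeight φ) (t : ℝ) : 0 < φ t :=
  lt_of_lt_of_le one_pos (hφ.one_le t)

theorem weight_loc {φ : ℝ → ℝ} (hφ : IsWeight φ) (T : ℝ) :
    ∃ B : ℝ, 1 ≤ B ∧ ∀ t, |t| ≤ T → φ t ≤ B := by
  obtain ⟨C, hC, h⟩ := Pool.Agent.Helper15_E.weight_bound hφ one_pos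
  refine ⟨max 1 (C * Real.exp T), le_max_left _ _, fun t ht => ?_⟩
  refine (h t).trans (le_trans ?_ (le_max_right _ _))
  apply mul_le_mul_of_nonneg_left _ hC.le
  apply Real.exp_le_exp.mpr
  linarith

/-- REFL on the window `[-T, 0]`. -/
theorem refl0 {φ : ℝ → ℝ} (hφ : IsWeight φ)
    (ho : Tendsto (fun t => φ (-t) / φ t) atTop (𝓝 0)) (K : Set ℝ) (C : ℝ) (hC1 : 1 ≤ C)
    (hC : ∀ F : Finset ℝ, (∀ x ∈ F, x ∈ K) → ∀ c : ℝ → ℂ, ∀ A : ℝ, 0 ≤ A →
      (∀ t, 0 ≤ t → ‖ep F c t‖ ≤ A * φ t) → ∀ t, t < 0 → ‖ep F c t‖ ≤ C * A * φ t) :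
    ∃ C' T : ℝ, 0 < C' ∧ 0 < T ∧ ∀ F : Finset ℝ, (∀ x ∈ F, x ∈ K) → ∀ (c : ℝ → ℂ) (m : ℝ),
      (∀ t, -T ≤ t → t ≤ 0 → ‖ep F c t‖ ≤ m) → ∀ s, ‖ep F c s‖ ≤ C' * m * φ (-|s|) := by
  have pos := weight_pos hφ
  -- the constant k
  obtain ⟨k, hk1, hk⟩ : ∃ k : ℝ, 1 ≤ k ∧ ∀ t, 0 ≤ t → φ (-t) ≤ k * φ t := by
    have h1 : ∀ᶠ t : ℝ in atTop, φ (-t) / φ t < 1 := ho.eventually_lt_const one_pos
    obtain ⟨T0, hT0⟩ := eventually_atTop.1 h1
    obtain ⟨B, hB1, hB⟩ := weight_loc hφ (max T0 0)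
    refine ⟨B, hB1, fun t ht => ?_⟩
    rcases le_total T0 t with h | h
    · have h2 := hT0 t h
      rw [div_lt_one (pos t)] at h2
      calc φ (-t) ≤ φ t := h2.le
        _ = 1 * φ t := (one_mul _).symm
        _ ≤ B * φ t := mul_le_mul_of_nonneg_right hB1 (pos t).le
    · have h2 : φ (-t) ≤ B := hB _ (by rw [abs_neg, abs_of_nonneg ht]; exact h.trans (le_max_left _ _))
      calc φ (-t) ≤ B * 1 := by rw [mul_one]; exact h2
        _ ≤ B * φ t := mul_le_mul_of_nonneg_left (hφ.one_le t) (by linarith)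
  have hC0 : 0 < C := by linarith
  have hk0 : 0 < k := by linarith
  -- the threshold
  obtain ⟨T, hT0, hT⟩ : ∃ T : ℝ, 0 < T ∧ ∀ t, T ≤ t → C ^ 2 * k * φ (-t) ≤ 1 / 2 * φ t := by
    have h1 : ∀ᶠ t : ℝ in atTop, φ (-t) / φ t < 1 / (2 * (C ^ 2 * k)) :=
      ho.eventually_lt_const (by positivity)
    obtain ⟨T0, hT0⟩ := eventually_atTop.1 h1
    refine ⟨max T0 1, lt_of_lt_of_le one_pos (le_max_right _ _), fun t ht => ?_⟩
    have h2 := hT0 t ((le_max_left _ _).trans ht)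
    rw [div_lt_div_iff₀ (pos t) (by positivity)] at h2
    nlinarith
  refine ⟨2 * C ^ 2 * k, T, by positivity, hT0, ?_⟩
  intro F hF c m hm
  have hm0 : 0 ≤ m := (norm_nonneg _).trans (hm 0 (by linarith) le_rfl)
  set B : ℝ := ∑ x ∈ F, ‖c x‖ with hB
  have hbd : ∀ t, ‖ep F c t‖ ≤ B := norm_ep_le F c
  set f : ℝ → ℝ := fun t => ‖ep F c t‖ / φ (-t) with hf
  have hbdd : BddAbove (f '' Set.Ici 0) := by
    refine ⟨B, ?_⟩
    rintro _ ⟨t, _, rfl⟩
    rw [hf]
    simp only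
    rw [div_le_iff₀ (pos _)]
    have hB0 : 0 ≤ B := (norm_nonneg _).trans (hbd 0)
    calc ‖ep F c t‖ ≤ B := hbd t
      _ ≤ B * φ (-t) := le_mul_of_one_le_right hB0 (hφ.one_le _)
  set a : ℝ := sSup (f '' Set.Ici 0) with ha
  have ha1 : ∀ t, 0 ≤ t → ‖ep F c t‖ ≤ a * φ (-t) := by
    intro t ht
    have h1 : f t ≤ a := le_csSup hbdd ⟨t, ht, rfl⟩
    rw [hf] at h1
    simp only at h1
    rwa [div_le_iff₀ (pos _)] at h1
  have ha0 : 0 ≤ a := by
    have h1 : f 0 ≤ a := le_csSup hbdd ⟨0, Set.mem_Ici.mpr le_rfl, rfl⟩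
    exact le_trans (div_nonneg (norm_nonneg _) (pos _).le) h1
  -- first application
  have h1 : ∀ t, 0 ≤ t → ‖ep F c t‖ ≤ (a * k) * φ t := by
    intro t ht
    calc ‖ep F c t‖ ≤ a * φ (-t) := ha1 t ht
      _ ≤ a * (k * φ t) := mul_le_mul_of_nonneg_left (hk t ht) ha0
      _ = _ := by ring
  have h2 : ∀ t, t < 0 → ‖ep F c t‖ ≤ C * (a * k) * φ t := hC F hF c (a * k) (by positivity) h1
  -- second application, to the reflected sum
  have h3 : ∀ t, 0 ≤ t → ‖ep F (fun x => (starRingEnd ℂ) (c x)) t‖ ≤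
      (m + a / (2 * C)) * φ t := by
    intro t ht
    rw [ep_reflect, Complex.norm_conj]
    have hac : 0 ≤ a / (2 * C) := by positivity
    rcases le_total t T with h | h
    · calc ‖ep F c (-t)‖ ≤ m := hm _ (by linarith) (by linarith)
        _ ≤ m * φ t := le_mul_of_one_le_right hm0 (hφ.one_le _)
        _ ≤ _ := by
            apply mul_le_mul_of_nonneg_right _ (pos t).le
            linarith
    · have h4 : -t < 0 := by linarith
      have h5 := hT t h
      calc ‖ep F c (-t)‖ ≤ C * (a * k) * φ (-t) := h2 _ h4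
        _ = a / C * (C ^ 2 * k * φ (-t)) := by field_simp
        _ ≤ a / C * (1 / 2 * φ t) := mul_le_mul_of_nonneg_left h5 (by positivity)
        _ = a / (2 * C) * φ t := by field_simp
        _ ≤ _ := by
            apply mul_le_mul_of_nonneg_right _ (pos t).le
            linarith
  have h4 := hC F hF (fun x => (starRingEnd ℂ) (c x)) (m + a / (2 * C)) (by positivity) h3
  have h5 : ∀ t, 0 ≤ t → f t ≤ C * m + a / 2 := by
    intro t ht
    rw [hf]
    simp only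
    rw [div_le_iff₀ (pos _)]
    have e : C * (m + a / (2 * C)) = C * m + a / 2 := by field_simp
    rcases eq_or_lt_of_le ht with h | h
    · rw [← h]
      calc ‖ep F c 0‖ ≤ m := hm 0 (by linarith) le_rfl
        _ ≤ C * m + a / 2 := by nlinarith
        _ ≤ (C * m + a / 2) * φ (-0) := le_mul_of_one_le_right (by positivity) (hφ.one_le _)
    · have h6 := h4 (-t) (by linarith)
      rw [ep_reflect, Complex.norm_conj, neg_neg, e] at h6
      exact h6
  have h6 : a ≤ C * m + a / 2 := by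
    rw [ha]
    apply csSup_le
    · exact ⟨f 0, 0, Set.mem_Ici.mpr le_rfl, rfl⟩
    · rintro _ ⟨t, ht, rfl⟩
      exact h5 t ht
  have h7 : a ≤ 2 * C * m := by linarith
  intro s
  rcases le_total 0 s with h | h
  · rw [abs_of_nonneg h]
    calc ‖ep F c s‖ ≤ a * φ (-s) := ha1 s h
      _ ≤ 2 * C ^ 2 * k * m * φ (-s) := by
          apply mul_le_mul_of_nonneg_right _ (pos _).le
          calc a ≤ 2 * C * m := h7
            _ = 2 * C * m * 1 := (mul_one _).symm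
            _ ≤ 2 * C * m * (C * k) := by
                apply mul_le_mul_of_nonneg_left _ (by positivity)
                nlinarith
            _ = _ := by ring
  · rcases eq_or_lt_of_le h with h' | h'
    · rw [h', abs_zero, neg_zero]
      calc ‖ep F c 0‖ ≤ m := hm 0 (by linarith) le_rfl
        _ = 1 * m * 1 := by ring
        _ ≤ 2 * C ^ 2 * k * m * φ 0 := by
            have h8 : (1 : ℝ) ≤ 2 * C ^ 2 * k := by nlinarith [mul_le_mul hC1 hC1 zero_le_one hC0.le]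
            have h9 := hφ.one_le 0
            apply mul_le_mul (mul_le_mul_of_nonneg_right h8 hm0) h9 zero_le_one (by positivity)
    · rw [abs_of_neg h', neg_neg]
      calc ‖ep F c s‖ ≤ C * (a * k) * φ s := h2 s h'
        _ ≤ 2 * C ^ 2 * k * m * φ s := by
            apply mul_le_mul_of_nonneg_right _ (pos _).le
            calc C * (a * k) = C * k * a := by ring
              _ ≤ C * k * (2 * C * m) := mul_le_mul_of_nonneg_left h7 (by positivity)
              _ = _ := by ring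

/-- REFL on the window `[0, T]`. -/
theorem refl1 {φ : ℝ → ℝ} (hφ : IsWeight φ)
    (ho : Tendsto (fun t => φ (-t) / φ t) atTop (𝓝 0)) (K : Set ℝ) (C : ℝ)
    (hC : ∀ F : Finset ℝ, (∀ x ∈ F, x ∈ K) → ∀ c : ℝ → ℂ, ∀ A : ℝ, 0 ≤ A →
      (∀ t, 0 ≤ t → ‖ep F c t‖ ≤ A * φ t) → ∀ t, t < 0 → ‖ep F c t‖ ≤ C * A * φ t) :
    ∃ C' T : ℝ, 0 < C' ∧ 0 < T ∧ ∀ F : Finset ℝ, (∀ x ∈ F, x ∈ K) → ∀ (c : ℝ → ℂ) (m : ℝ),
      (∀ t, 0 ≤ t → t ≤ T → ‖ep F c t‖ ≤ m) → ∀ s, ‖ep F c s‖ ≤ C' * m * φ (-|s|) := by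
  have pos := weight_pos hφ
  obtain ⟨C', T, hC', hT, h⟩ := refl0 hφ ho K (max C 1) (le_max_right _ _) (by
    intro F hF c A hA h t ht
    refine (hC F hF c A hA h t ht).trans ?_
    apply mul_le_mul_of_nonneg_right _ (pos t).le
    exact mul_le_mul_of_nonneg_right (le_max_left _ _) hA)
  obtain ⟨B, hB1, hB⟩ := weight_loc hφ T
  refine ⟨C' * B, T, by positivity, hT, ?_⟩
  intro F hF c m hm s
  have hm0 : 0 ≤ m := (norm_nonneg _).trans (hm 0 le_rfl hT.le)
  have h1 := h F hF (fun x => c x * expR x T) m (by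
    intro t h1 h2
    rw [ep_translate]
    exact hm _ (by linarith) (by linarith)) (s - T)
  rw [ep_translate, sub_add_cancel] at h1
  refine h1.trans ?_
  have h2 : φ (-|s - T|) ≤ φ (-|s|) * B := by
    have e : -|s - T| = -|s| + (|s| - |s - T|) := by ring
    rw [e]
    refine (hφ.submul _ _).trans ?_
    apply mul_le_mul_of_nonneg_left _ (pos _).le
    apply hB
    have h3 := abs_abs_sub_abs_le s (s - T)
    have h4 : |s - (s - T)| = T := by rw [sub_sub_cancel, abs_of_pos hT]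
    linarith
  calc C' * m * φ (-|s - T|) ≤ C' * m * (φ (-|s|) * B) :=
        mul_le_mul_of_nonneg_left h2 (by positivity)
    _ = _ := by ring

end

end Pool.Agent.Helper7_WK
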