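import Pool.Agent.Helper7_WK.Refl0
import Pool.Agent.Helper78_E.Dict

/-!
# MP_7d2497_an: uniqueness of extensions
-/

namespace Pool.Agent.Helper7_WK

open MeasureTheory Filter Topology Complex
open Pool.Agent.H78E

noncomputable section

theorem isPreconnected_compl {K : Set ℝ} (hKc : K.Countable) :
    IsPreconnected {z : ℂ | ∀ x ∈ K, z ≠ (x : ℂ)} := by
  have h1 : ((fun x : ℝ => (x : ℂ)) '' K).Countable := hKc.image _
  have h2 := h1.isConnected_compl_of_one_lt_rank (by
    rw [Complex.rank_real_complex]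
    exact Cardinal.one_lt_two)
  have h3 : {z : ℂ | ∀ x ∈ K, z ≠ (x : ℂ)} = ((fun x : ℝ => (x : ℂ)) '' K)ᶜ := by
    ext z
    simp only [Set.mem_ofPred_eq, Set.mem_compl_iff, Set.mem_image, not_exists, not_and]
    constructor
    · intro h x hx he
      exact h x hx he.symm
    · intro h x hx he
      exact h x hx he.symm
  rw [h3]
  exact h2.isPreconnected

theorem isOpen_compl' {K : Set ℝ} (hK : IsClosed K) :
    IsOpen {z : ℂ | ∀ x ∈ K, z ≠ (x : ℂ)} := by
  have h1 : IsClosed ((fun x : ℝ => (x : ℂ)) '' K) :=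
    Complex.isometry_ofReal.isClosedEmbedding.isClosedMap K hK
  have h3 : {z : ℂ | ∀ x ∈ K, z ≠ (x : ℂ)} = ((fun x : ℝ => (x : ℂ)) '' K)ᶜ := by
    ext z
    simp only [Set.mem_ofPred_eq, Set.mem_compl_iff, Set.mem_image, not_exists, not_and]
    constructor
    · intro h x hx he
      exact h x hx he.symm
    · intro h x hx he
      exact h x hx he.symm
  rw [h3]
  exact h1.isOpen_compl

/-- A function vanishing on the half-line whose spectrum is in a countable closed set is zero. -/
theorem uniq (hLine : LineStmt) (hL : LapuStmt) {φ : ℝ → ℝ} (hφ : IsWeight φ) {G : ℝ → ℂ}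
    (hG : LInf φ G) (h0 : ∀ᵐ t : ℝ, 0 ≤ t → G t = 0) {K : Set ℝ} (hK : IsClosed K)
    (hKc : K.Countable) (hS : Spec φ G ⊆ K) : G =ᵐ[volume] 0 := by
  obtain ⟨κ, hd, hp, hn⟩ := hLine φ hφ G hG
  set U : Set ℂ := {z : ℂ | ∀ x ∈ K, z ≠ (x : ℂ)} with hU
  have hUo : IsOpen U := isOpen_compl' hK
  have hUc : IsPreconnected U := isPreconnected_compl hKc
  have hdU : DifferentiableOn ℂ κ U := hd.mono fun z hz x hx => hz x (hS hx)
  have han : AnalyticOnNhd ℂ κ U := hdU.analyticOnNhd hUo
  have hup : ∀ z : ℂ, 0 < z.im → κ z = 0 := by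
    intro z hz
    rw [hp z hz]
    have : ∫ t in Set.Ioi (0 : ℝ), G t * Complex.exp (Complex.I * z * t) =
        ∫ t in Set.Ioi (0 : ℝ), (0 : ℂ) := by
      apply setIntegral_congr_ae measurableSet_Ioi
      filter_upwards [h0] with t ht ht0
      rw [ht (le_of_lt ht0), zero_mul]
    rw [this, integral_zero]
  have hI : Complex.I ∈ U := by
    intro x _ h
    have := congrArg Complex.im h
    simp at this
  have hev : κ =ᶠ[𝓝 Complex.I] 0 := by
    have : {z : ℂ | 0 < z.im} ∈ 𝓝 Complex.I :=
      (isOpen_lt continuous_const Complex.continuous_im).mem_nhds (by simp)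
    filter_upwards [this] with z hz
    exact hup z hz
  have hz0 := han.eqOn_zero_of_preconnected_of_eventuallyEq_zero hUc hI hev
  have hlow : ∀ z : ℂ, z.im < 0 → ∫ t in Set.Iio (0 : ℝ), G t * Complex.exp (Complex.I * z * t) = 0 := by
    intro z hz
    have hzU : z ∈ U := by
      intro x _ h
      have := congrArg Complex.im h
      simp at this
      linarith
    have h1 := hz0 hzU
    rw [hn z hz, Pi.zero_apply, neg_eq_zero] at h1
    exact h1
  -- the reflected function
  obtain ⟨G', C, hG'm, hG'b, hG'e⟩ := Pool.Agent.Helper15_E.rep hG hφ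
  have hC0 : 0 ≤ C := by
    have h1 := hG'b 0
    have h2 := norm_nonneg (G' 0)
    have h3 := hφ.one_le 0
    nlinarith
  set F : ℝ → ℂ := fun t => if 0 < t then G' (-t) * ((Real.exp (-t) : ℝ) : ℂ) else 0 with hF
  have hFm : Measurable F := by
    refine Measurable.ite measurableSet_Ioi ?_ measurable_const
    exact (hG'm.comp measurable_neg).mul (by fun_prop)
  have hFi : Integrable F volume := by
    have h1 := ((Pool.Agent.Helper15_E.integrable_weight hφ one_pos).comp_neg).const_mul C
    refine h1.mono' hFm.aestronglyMeasurable (Eventually.of_forall fun t => ?_)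
    rw [hF]
    simp only
    split_ifs with h
    · rw [norm_mul, Complex.norm_real, Real.norm_of_nonneg (Real.exp_pos _).le]
      simp only [abs_neg, one_mul]
      rw [abs_of_pos h, ← mul_assoc]
      exact mul_le_mul_of_nonneg_right (hG'b _) (Real.exp_pos _).le
    · rw [norm_zero]
      have := weight_pos hφ (-t)
      positivity
  set f : Y := ⟨(memLp_one_iff_integrable.mpr hFi).toLp F, by
      rw [mem_Y]
      filter_upwards [(memLp_one_iff_integrable.mpr hFi).coeFn_toLp] with t h1 h2
      rw [h1, hF]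
      simp only
      rw [if_neg (not_lt.mpr h2.le)]⟩ with hf
  have hfe : ((f : X) : ℝ → ℂ) =ᵐ[volume] F := (memLp_one_iff_integrable.mpr hFi).coeFn_toLp
  have hf0 : f = 0 := by
    apply hL
    intro z hz
    rw [chi_eq_Ioi hz.le]
    have h1 : ∫ t in Set.Ioi (0 : ℝ), ((f : X) : ℝ → ℂ) t * Complex.exp (-(Complex.I * (t : ℂ) * z)) =
        ∫ t in Set.Ioi (0 : ℝ), (fun u : ℝ => G' u * Complex.exp (Complex.I * (z - Complex.I) * u)) (-t) := by
      apply setIntegral_congr_ae measurableSet_Ioi
      filter_upwards [hfe] with t h2 ht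
      have ht' : 0 < t := ht
      rw [h2, hF]
      simp only
      rw [if_pos ht', mul_assoc, Complex.ofReal_exp, ← Complex.exp_add]
      congr 2
      push_cast
      have := Complex.I_mul_I
      linear_combination (-(t : ℂ)) * this
    rw [h1, integral_comp_neg_Ioi 0 (fun u : ℝ => G' u * Complex.exp (Complex.I * (z - Complex.I) * u)),
      neg_zero, integral_Iic_eq_integral_Iio]
    have h3 := hlow (z - Complex.I) (by simp; linarith)
    rw [← h3]
    apply setIntegral_congr_ae measurableSet_Iio
    filter_upwards [hG'e] with t h4 _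
    rw [h4]
  have hF0 : F =ᵐ[volume] 0 := by
    refine hfe.symm.trans ?_
    rw [hf0]
    exact Lp.coeFn_zero ℂ 1 volume
  have hF0' : ∀ᵐ t : ℝ, F (-t) = 0 := by
    have := (Measure.measurePreserving_neg (volume : Measure ℝ)).quasiMeasurePreserving.ae hF0
    exact this
  filter_upwards [hF0', hG'e, h0] with t h1 h2 h3
  rcases le_or_gt 0 t with h | h
  · exact h3 h
  · rw [hF] at h1
    simp only at h1
    rw [if_pos (by linarith), neg_neg] at h1
    have h4 : ((Real.exp t : ℝ) : ℂ) ≠ 0 := by
      rw [Complex.ofReal_ne_zero]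
      exact (Real.exp_pos _).ne'
    rw [← h2]
    exact (mul_eq_zero.mp h1).resolve_right h4

end

end Pool.Agent.Helper7_WK
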