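import Pool.Agent.Helper7_WK.Open
import Pool.Agent.Helper7_WK.Uniq
import Pool.Agent.Helper7_WK.CrCont

/-!
# MP_7d2497_an: property (E) gives an inequality between the two half-lines
-/

namespace Pool.Agent.Helper7_WK

open MeasureTheory Filter Topology Complex
open Pool.Agent.H78E

noncomputable section

variable {φ : ℝ → ℝ}

/-- Functions on the half-line whose transform vanishes on `K`. -/
def JK (φ : ℝ → ℝ) (K : Set ℝ) : Set (ℝ → ℂ) :=
  {f | L1 φ f ∧ (∀ t, t < 0 → f t = 0) ∧ ∀ x ∈ K, ∫ t : ℝ, f t * expR x t = 0}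

/-- Functions in the weighted space of the line all of whose translates are annihilated by the
functions on the half-line whose transform vanishes on `K`. -/
def XK (φ : ℝ → ℝ) (K : Set ℝ) : Set (ℝ → ℂ) :=
  {G | LInf φ G ∧ ∀ f ∈ JK φ K, ∀ s, cr G f s = 0}

theorem JK_shift (hφ : IsWeight φ) {K : Set ℝ} {f : ℝ → ℂ} (hf : f ∈ JK φ K) {s : ℝ}
    (hs : 0 ≤ s) : (fun t => f (t - s)) ∈ JK φ K := by
  refine ⟨L1.shift72 hφ hf.1 s, fun t ht => hf.2.1 _ (by linarith), fun x hx => ?_⟩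
  have h1 := cr_shift (expR x) f s
  rw [← h1]
  unfold cr
  have e : ∀ t : ℝ, f t * expR x (t + s) = expR x s * (f t * expR x t) := by
    intro t
    have : expR x (t + s) = expR x t * expR x s := by
      unfold expR
      rw [← Complex.exp_add]
      congr 1
      push_cast
      ring
    rw [this]
    ring
  simp_rw [e]
  rw [integral_const_mul, hf.2.2 x hx, mul_zero]

theorem expR_linf' (hφ : IsWeight φ) (x : ℝ) : LInf φ (expR x) := by
  refine ⟨(continuous_expR x).aestronglyMeasurable, 1, Eventually.of_forall fun t => ?_⟩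
  rw [norm_expR, one_mul]
  exact hφ.one_le t

theorem expR_XK (hφ : IsWeight φ) {K : Set ℝ} {x : ℝ} (hx : x ∈ K) : expR x ∈ XK φ K := by
  refine ⟨expR_linf' hφ x, fun f hf s => ?_⟩
  unfold cr
  have e : ∀ t : ℝ, f t * expR x (t + s) = expR x s * (f t * expR x t) := by
    intro t
    have : expR x (t + s) = expR x t * expR x s := by
      unfold expR
      rw [← Complex.exp_add]
      congr 1
      push_cast
      ring
    rw [this]
    ring
  simp_rw [e]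
  rw [integral_const_mul, hf.2.2 x hx, mul_zero]

theorem ep_XK (hφ : IsWeight φ) {K : Set ℝ} (F : Finset ℝ) (hF : ∀ x ∈ F, x ∈ K) (c : ℝ → ℂ) :
    ep F c ∈ XK φ K := by
  refine ⟨ep_linf hφ F c, fun f hf s => ?_⟩
  unfold cr ep
  have e : ∀ t : ℝ, f t * ∑ x ∈ F, c x * expR x (t + s) = ∑ x ∈ F, c x * (f t * expR x (t + s)) := by
    intro t
    rw [Finset.mul_sum]
    refine Finset.sum_congr rfl fun x _ => ?_
    ring
  simp_rw [e]
  rw [integral_finsetSum]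
  · apply Finset.sum_eq_zero
    intro x hx
    rw [integral_const_mul]
    have := (expR_XK hφ (hF x hx)).2 f hf s
    unfold cr at this
    rw [this, mul_zero]
  · intro x _
    exact (L1.mulInt72 hf.1 (LInf.shift72 hφ (expR_linf' hφ x) s)).const_mul _

theorem Spec_XK (hBi : BipolarStmt) (hφ : IsWeight φ) {K : Set ℝ}
    (hN1 : ∀ x : ℝ, x ∉ K → ∃ f ∈ JK φ K, ∫ t : ℝ, f t * expR x t ≠ 0) {G : ℝ → ℂ}
    (hG : G ∈ XK φ K) : Spec φ G ⊆ K := by
  intro x hx
  by_contra hcon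
  obtain ⟨f, hf, hne⟩ := hN1 x hcon
  have h1 : expR x ∈ B φ G := hx
  rw [hBi φ hφ G (expR x) hG.1 (expR_linf' hφ x)] at h1
  exact hne (h1 f hf.1 (fun s => hG.2 f hf s))

/-- STEP A. -/
theorem stepA (hLine : LineStmt) (hL : LapuStmt) (hDu : DualStmt) (hBi : BipolarStmt)
    (hBP : BipolarPosStmt) (hφ : IsWeight φ) {K Λ : Set ℝ} (hK : IsClosed K)
    (hKc : K.Countable) (hKL : K ⊆ Λ) (hE : PropertyE φ Λ)
    (hN1 : ∀ z : ℂ, z.im ≤ 0 → (∀ x ∈ K, z ≠ (x : ℂ)) → ∃ f ∈ JK φ K, ∫ t : ℝ, f t * expPos z t ≠ 0)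
    (hN2 : ∀ h, LInfPos φ h → (∀ f ∈ JK φ K, ∫ t : ℝ, f t * h t = 0) → ¬ h =ᵐ[volume] 0 →
      (SpecPos φ h).Nonempty ∧
        ∀ z : ℂ, SpecPos φ h = {z} → ∃ c : ℂ, h =ᵐ[volume] fun t => c * expPos z t) :
    ∃ C : ℝ, 0 < C ∧ ∀ F : Finset ℝ, (∀ x ∈ F, x ∈ K) → ∀ (c : ℝ → ℂ) (A : ℝ), 0 ≤ A →
      (∀ t, 0 ≤ t → ‖ep F c t‖ ≤ A * φ t) → ∀ t, ‖ep F c t‖ ≤ C * A * φ t := by
  have hreal : ∀ (f : ℝ → ℂ) (x : ℝ), (∀ t, t < 0 → f t = 0) →
      ∫ t : ℝ, f t * expPos (x : ℂ) t = ∫ t : ℝ, f t * expR x t := by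
    intro f x hf
    congr 1
    ext1 t
    by_cases h : 0 ≤ t
    · unfold expPos expR
      rw [if_pos h]
    · rw [hf t (not_le.mp h)]
      ring
  have hN1' : ∀ x : ℝ, x ∉ K → ∃ f ∈ JK φ K, ∫ t : ℝ, f t * expR x t ≠ 0 := by
    intro x hx
    obtain ⟨f, hf, hne⟩ := hN1 (x : ℂ) (by simp) (by
      intro y hy h
      exact hx ((Complex.ofReal_injective h) ▸ hy))
    refine ⟨f, hf, ?_⟩
    rwa [hreal f x hf.2.1] at hne
  have huniq : ∀ G, LInf φ G → (∀ᵐ t : ℝ, 0 ≤ t → G t = 0) → (∀ f ∈ JK φ K, ∀ s, cr G f s = 0) →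
      G =ᵐ[volume] 0 := by
    intro G hG h0 hGJ
    exact uniq hLine hL hφ hG h0 hK hKc (Spec_XK hBi hφ hN1' ⟨hG, hGJ⟩)
  obtain ⟨C, hC, hCb⟩ := open_map hDu hφ (JK φ K) (fun f hf => ⟨hf.1, hf.2.1⟩) (by
    intro g hg hgJ
    by_cases hg0 : g =ᵐ[volume] 0
    · refine ⟨0, LInf.zero72, ?_, fun f _ s => by unfold cr; simp⟩
      filter_upwards [hg0] with t ht _
      rw [ht]
    obtain ⟨hne, _⟩ := hN2 g hg hgJ hg0
    -- elements of `BPos φ g`
    have hBJ : ∀ h ∈ BPos φ g, LInfPos φ h ∧ ∀ f ∈ JK φ K, ∫ t : ℝ, f t * h t = 0 := by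
      intro h hh
      refine ⟨hh.1, fun f hf => ?_⟩
      have h1 := (hBP φ hφ g h hg hh.1).mp hh
      apply h1 f hf.1 hf.2.1
      intro s hs
      have h2 := hgJ _ (JK_shift hφ hf hs)
      rw [← h2]
      exact cr_shift g f s
    have hsimple : SimpleSpec φ g := by
      intro h hh hz
      obtain ⟨z, hz⟩ := hz
      obtain ⟨h1, h2⟩ := hBJ h hh
      by_cases h0 : h =ᵐ[volume] 0
      · refine ⟨0, 0, by simp, ?_⟩
        filter_upwards [h0] with t ht
        rw [ht]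
        simp
      · obtain ⟨c, hc⟩ := (hN2 h h1 h2 h0).2 z hz
        refine ⟨c, z, ?_, hc⟩
        have : z ∈ SpecPos φ h := by rw [hz]; exact Set.mem_singleton z
        exact this.1
    have hspec : SpecPos φ g ⊆ (fun x : ℝ => (x : ℂ)) '' K := by
      intro z hz
      by_contra hcon
      have h1 : ∀ x ∈ K, z ≠ (x : ℂ) := by
        intro x hx h
        exact hcon ⟨x, hx, h.symm⟩
      obtain ⟨f, hf, hne'⟩ := hN1 z hz.1 h1
      exact hne' ((hBJ _ hz.2).2 f hf)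
    obtain ⟨G, hG, hGe, hGs⟩ := hE g hg hne hsimple (hspec.trans (Set.image_mono hKL))
    have hGK : Spec φ G ⊆ K := by
      intro x hx
      have h1 : (x : ℂ) ∈ SpecPos φ g := by
        rw [← hGs]
        exact ⟨x, hx, rfl⟩
      obtain ⟨y, hy, hxy⟩ := hspec h1
      exact (Complex.ofReal_injective hxy) ▸ hy
    refine ⟨G, hG, hGe, fun f hf s => ?_⟩
    apply cr_eq_zero hφ hG hf.1
    apply uniq hLine hL hφ (cr_linf hφ hG hf.1) _ hK hKc ((Spec_cr hBi hφ hG hf.1).trans hGK)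
    refine Eventually.of_forall fun u hu => ?_
    have h2 := hgJ _ (JK_shift hφ hf hu)
    rw [← h2, ← cr_shift]
    unfold cr
    apply integral_congr_ae
    filter_upwards [ae_add u hGe] with t ht
    by_cases h0 : 0 ≤ t
    · rw [ht (by linarith)]
    · rw [hf.2.1 t (not_le.mp h0), zero_mul, zero_mul]) huniq
  obtain ⟨B, hB1, hB⟩ := bound_all hφ
  refine ⟨B * C, by positivity, ?_⟩
  intro F hF c A hA hb t
  have h1 := hCb (ep F c) (ep_linf hφ F c) (ep_XK hφ F hF c).2 A hA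
    (Eventually.of_forall fun t ht => hb t ht)
  have h2 := hB (ep F c) (continuous_ep F c) (C * A) (by positivity) h1 t
  calc ‖ep F c t‖ ≤ B * (C * A) * φ t := h2
    _ = _ := by ring

end

end Pool.Agent.Helper7_WK
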